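import Pool.Agent.helper37.QA.Near

/-!
Persistence of the solutions of `G(x) = x - t x_{i₀} v` for homogeneous nondegenerate `G`.
-/

set_option autoImplicit false

namespace Pool.Agent.helper37.QA

open MvPolynomial Filter Topology

theorem eval_smul_hom {m D : ℕ} {φ : MvPolynomial (Fin m) ℂ} (h : φ.IsHomogeneous D) (c : ℂ)
    (x : Fin m → ℂ) : eval (c • x) φ = c ^ D * eval x φ := by
  rw [eval_eq', eval_eq', Finset.mul_sum]
  refine Finset.sum_congr rfl fun d hd => ?_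
  have hd' : d.degree = D := by
    by_contra hne
    exact (mem_support_iff.1 hd) (h.coeff_eq_zero hne)
  have h1 : ∏ i, (c • x) i ^ d i = c ^ D * ∏ i, x i ^ d i := by
    simp only [Pi.smul_apply, smul_eq_mul, mul_pow, Finset.prod_mul_distrib]
    rw [Finset.prod_pow_eq_pow_sum, ← Finsupp.degree_eq_sum, hd']
  rw [h1]
  ring

/-- The polynomial map given by a family of polynomials. -/
noncomputable def pmap {m : ℕ} (G : Fin m → MvPolynomial (Fin m) ℂ) (x : Fin m → ℂ) :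
    Fin m → ℂ := fun i => eval x (G i)

theorem pmap_cont {m : ℕ} (G : Fin m → MvPolynomial (Fin m) ℂ) : Continuous (pmap G) :=
  continuous_pi fun i => MvPolynomial.continuous_eval (G i)

theorem pmap_smul {m D : ℕ} {G : Fin m → MvPolynomial (Fin m) ℂ}
    (hom : ∀ i, (G i).IsHomogeneous D) (c : ℂ) (x : Fin m → ℂ) :
    pmap G (c • x) = c ^ D • pmap G x := by
  funext i
  simp [pmap, eval_smul_hom (hom i)]

/-- Bounds for a homogeneous nondegenerate map. -/
theorem pmap_bounds {m D : ℕ} {G : Fin m → MvPolynomial (Fin m) ℂ}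
    (hom : ∀ i, (G i).IsHomogeneous D) (nd : ∀ x : Fin m → ℂ, (∀ i, eval x (G i) = 0) → x = 0) :
    ∃ c C : ℝ, 0 < c ∧ 0 < C ∧ ∀ x : Fin m → ℂ, x ≠ 0 → c * ‖x‖ ^ D ≤ ‖pmap G x‖ ∧
      ‖pmap G x‖ ≤ C * ‖x‖ ^ D := by
  by_cases hm : ∃ x : Fin m → ℂ, x ≠ 0
  · have hK : IsCompact (Metric.sphere (0 : Fin m → ℂ) 1) := isCompact_sphere _ _
    have hne : (Metric.sphere (0 : Fin m → ℂ) 1).Nonempty := by
      obtain ⟨x, hx⟩ := hm
      refine ⟨((‖x‖ : ℂ)⁻¹) • x, ?_⟩
      have : ‖x‖ ≠ 0 := norm_ne_zero_iff.2 hx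
      simp [norm_smul, this]
    have hcont : Continuous fun x => ‖pmap G x‖ := (pmap_cont G).norm
    obtain ⟨a, ha, hamin⟩ := hK.exists_isMinOn hne hcont.continuousOn
    obtain ⟨b, hb, hbmax⟩ := hK.exists_isMaxOn hne hcont.continuousOn
    have ha0 : a ≠ 0 := by
      rintro rfl
      simp at ha
    have hpos : 0 < ‖pmap G a‖ := by
      rw [norm_pos_iff]
      intro h0
      exact ha0 (nd a fun i => congrFun h0 i)
    refine ⟨‖pmap G a‖, ‖pmap G b‖, hpos, lt_of_lt_of_le hpos (hbmax ha), fun x hx => ?_⟩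
    have hx' : ‖x‖ ≠ 0 := norm_ne_zero_iff.2 hx
    have hxp : 0 < ‖x‖ := norm_pos_iff.2 hx
    set y : Fin m → ℂ := ((‖x‖ : ℂ)⁻¹) • x with hy
    have hy1 : y ∈ Metric.sphere (0 : Fin m → ℂ) 1 := by
      simp [hy, norm_smul, hx']
    have hxy : x = (‖x‖ : ℂ) • y := by
      rw [hy, smul_smul, mul_inv_cancel₀ (by exact_mod_cast hx'), one_smul]
    have h1 : ‖pmap G x‖ = ‖x‖ ^ D * ‖pmap G y‖ := by
      conv_lhs => rw [hxy]
      rw [pmap_smul hom, norm_smul, norm_pow]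
      simp
    rw [h1]
    constructor
    · rw [mul_comm]
      exact mul_le_mul_of_nonneg_left (hamin hy1) (by positivity)
    · rw [mul_comm ‖pmap G b‖]
      exact mul_le_mul_of_nonneg_left (hbmax hy1) (by positivity)
  · push Not at hm
    exact ⟨1, 1, one_pos, one_pos, fun x hx => absurd (hm x) hx⟩

/-- The linear part. -/
noncomputable def lin {m : ℕ} (v : Fin m → ℂ) (i₀ : Fin m) (i : Fin m) :
    MvPolynomial (Fin m) (Polynomial ℂ) :=
  X i - C (Polynomial.X * Polynomial.C (v i)) * X i₀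

theorem lin_deg {m : ℕ} (v : Fin m → ℂ) (i₀ : Fin m) (i : Fin m) :
    (lin v i₀ i).totalDegree ≤ 1 := by
  refine (totalDegree_sub _ _).trans ?_
  refine max_le ?_ ?_
  · exact (totalDegree_X i).le
  · refine (totalDegree_mul _ _).trans ?_
    simp only [totalDegree_C, zero_add]
    exact (totalDegree_X i₀).le

theorem ev_eqs {m : ℕ} (G : Fin m → MvPolynomial (Fin m) ℂ) (v : Fin m → ℂ) (i₀ i : Fin m)
    (t : ℂ) (z : Fin m → ℂ) :
    ev t z (eqs G (lin v i₀) i) = eval z (G i) - (z i - t * v i * z i₀) := by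
  rw [eqs, map_sub, ev_map, lin, map_sub, map_mul, ev_X, ev_X, ev_C]
  simp only [Polynomial.eval_mul, Polynomial.eval_X, Polynomial.eval_C]

theorem sol_finite {m D : ℕ} (hD : 2 ≤ D) {G : Fin m → MvPolynomial (Fin m) ℂ}
    (hom : ∀ i, (G i).IsHomogeneous D) (nd : ∀ x : Fin m → ℂ, (∀ i, eval x (G i) = 0) → x = 0)
    {ell : Fin m → MvPolynomial (Fin m) (Polynomial ℂ)} (hl : ∀ i, (ell i).totalDegree ≤ 1)
    (t : ℂ) : {z : Fin m → ℂ | ∀ i, ev t z (eqs G ell i) = 0}.Finite := by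
  have hfin := finite_quot hD hom nd hl (eqI G ell) le_rfl
  have hint : Algebra.IsIntegral (Polynomial ℂ)
    (MvPolynomial (Fin m) (Polynomial ℂ) ⧸ eqI G ell) := inferInstance
  have h1 : ∀ j : Fin m, ∃ g : Polynomial (Polynomial ℂ), g.Monic ∧
      Polynomial.eval₂ (algebraMap (Polynomial ℂ) _) (Ideal.Quotient.mk (eqI G ell) (X j)) g = 0 :=
    fun j => hint.isIntegral _
  choose g hg hg2 using h1
  have h2 : {z : Fin m → ℂ | ∀ i, ev t z (eqs G ell i) = 0} ⊆
      Set.pi Set.univ fun j => {w : ℂ | ((g j).map (Polynomial.evalRingHom t)).IsRoot w} := by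
    intro z hz j _
    have hker : ∀ s ∈ eqI G ell, ev t z s = 0 := by
      intro s hs
      have : eqI G ell ≤ RingHom.ker (ev t z) := by
        refine Ideal.span_le.2 ?_
        rintro _ ⟨i, rfl⟩
        exact hz i
      exact this hs
    set χ : MvPolynomial (Fin m) (Polynomial ℂ) ⧸ eqI G ell →+* ℂ :=
      Ideal.Quotient.lift (eqI G ell) (ev t z) hker with hχ
    have h3 := Polynomial.hom_eval₂ (g j) (algebraMap (Polynomial ℂ) _) χ
      (Ideal.Quotient.mk (eqI G ell) (X j))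
    rw [hg2 j, map_zero] at h3
    have h4 : χ.comp (algebraMap (Polynomial ℂ)
        (MvPolynomial (Fin m) (Polynomial ℂ) ⧸ eqI G ell)) = Polynomial.evalRingHom t := by
      refine RingHom.ext fun r => ?_
      change ev t z (C r) = _
      simp
    have h5 : χ (Ideal.Quotient.mk (eqI G ell) (X j)) = z j := by
      change ev t z (X j) = z j
      simp
    rw [h4, h5] at h3
    change ((g j).map (Polynomial.evalRingHom t)).IsRoot (z j)
    rw [Polynomial.IsRoot, Polynomial.eval_map]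
    exact h3.symm
  refine Set.Finite.subset (Set.Finite.pi fun j => ?_) h2
  exact Polynomial.finite_setOfPred_isRoot ((hg j).map _).ne_zero

/-- Persistence of solutions. -/
theorem persist {m D : ℕ} (hD : 2 ≤ D) {G : Fin m → MvPolynomial (Fin m) ℂ}
    (hom : ∀ i, (G i).IsHomogeneous D) (nd : ∀ x : Fin m → ℂ, (∀ i, eval x (G i) = 0) → x = 0)
    (v : Fin m → ℂ) (i₀ : Fin m) {t₀ : ℂ} {x₀ : Fin m → ℂ}
    (h0 : ∀ i, eval x₀ (G i) = x₀ i - t₀ * v i * x₀ i₀) {ε : ℝ} (hε : 0 < ε) :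
    ∃ η : ℝ, 0 < η ∧ ∀ t : ℂ, ‖t - t₀‖ < η → ∃ z : Fin m → ℂ,
      (∀ i, eval z (G i) = z i - t * v i * z i₀) ∧ ‖z - x₀‖ < ε := by
  classical
  by_contra hcon
  push Not at hcon
  have hl := lin_deg v i₀
  have h0' : ∀ i, ev t₀ x₀ (eqs G (lin v i₀) i) = 0 := by
    intro i
    rw [ev_eqs, h0 i, sub_self]
  have hfin := sol_finite hD hom nd hl t₀
  set F : Finset (Fin m → ℂ) := hfin.toFinset.erase x₀ with hF
  have hidx : ∀ w : Fin m → ℂ, ∃ j : Fin m, w ≠ x₀ → w j ≠ x₀ j := by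
    intro w
    by_cases hw : w = x₀
    · exact ⟨i₀, fun h => absurd hw h⟩
    · obtain ⟨j, hj⟩ := Function.ne_iff.1 hw
      exact ⟨j, fun _ => hj⟩
  choose idx hidx using hidx
  set q : MvPolynomial (Fin m) ℂ := ∏ w ∈ F, (X (idx w) - C (w (idx w))) with hq
  have hqx : eval x₀ q ≠ 0 := by
    rw [hq, map_prod, Finset.prod_ne_zero_iff]
    intro w hw
    have hw' : w ≠ x₀ := (Finset.mem_erase.1 hw).1
    simp only [map_sub, eval_X, eval_C]
    exact sub_ne_zero.2 (hidx w hw').symm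
  have hqF : ∀ w ∈ F, eval w q = 0 := by
    intro w hw
    rw [hq, map_prod]
    refine Finset.prod_eq_zero hw ?_
    simp
  set δ : ℝ := ‖eval x₀ q‖ / 2 with hδ
  have hδpos : 0 < δ := by
    have := norm_pos_iff.2 hqx
    positivity
  obtain ⟨η₁, hη₁, hnear⟩ := near_value hD hom nd hl h0' q hδpos
  have hseq : ∀ n : ℕ, ∃ t : ℂ, ∃ z : Fin m → ℂ, ‖t - t₀‖ < min η₁ (1 / ((n : ℝ) + 1)) ∧
      (∀ i, eval z (G i) = z i - t * v i * z i₀) ∧ ‖eval z q - eval x₀ q‖ < δ ∧
      ε ≤ ‖z - x₀‖ := by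
    intro n
    have hpos : 0 < min η₁ (1 / ((n : ℝ) + 1)) := lt_min hη₁ (by positivity)
    obtain ⟨t, ht, ht2⟩ := hcon _ hpos
    obtain ⟨z, hz, hz2⟩ := hnear t (lt_of_lt_of_le ht (min_le_left _ _))
    have hz' : ∀ i, eval z (G i) = z i - t * v i * z i₀ := by
      intro i
      have := hz i
      rw [ev_eqs] at this
      exact sub_eq_zero.1 this
    exact ⟨t, z, ht, hz', hz2, ht2 z hz'⟩
  choose t z ht hz hzq hzε using hseq
  have htlim : Tendsto t atTop (𝓝 t₀) := by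
    rw [tendsto_iff_norm_sub_tendsto_zero]
    refine squeeze_zero (fun n => norm_nonneg _) (fun n => ?_)
      (tendsto_one_div_add_atTop_nhds_zero_nat)
    exact ((ht n).trans_le (min_le_right _ _)).le
  -- boundedness
  obtain ⟨c, C, hc, hC, hcC⟩ := pmap_bounds hom nd
  have hbound : ∀ n, ‖z n‖ ≤ max 1 ((1 + (‖t₀‖ + 1) * ‖v‖) / c) := by
    intro n
    by_cases h1 : ‖z n‖ ≤ 1
    · exact h1.trans (le_max_left _ _)
    · push Not at h1
      have hz0 : z n ≠ 0 := by
        intro h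
        rw [h, norm_zero] at h1
        linarith
      have h2 := (hcC (z n) hz0).1
      have h3 : ‖pmap G (z n)‖ ≤ (1 + (‖t₀‖ + 1) * ‖v‖) * ‖z n‖ := by
        have h4 : pmap G (z n) = z n - (t n * z n i₀) • v := by
          funext i
          change eval (z n) (G i) = _
          rw [hz n i]
          simp only [Pi.sub_apply, Pi.smul_apply, smul_eq_mul]
          ring
        rw [h4]
        have h5 : ‖t n‖ ≤ ‖t₀‖ + 1 := by
          have h6 := ht n
          have h7 : ‖t n - t₀‖ < 1 / ((n : ℝ) + 1) := lt_of_lt_of_le h6 (min_le_right _ _)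
          have h8 : (1 : ℝ) / ((n : ℝ) + 1) ≤ 1 := by
            rw [div_le_one (by positivity)]
            have : (0 : ℝ) ≤ n := Nat.cast_nonneg n
            linarith
          have h9 := norm_sub_norm_le (t n) t₀
          linarith
        calc ‖z n - (t n * z n i₀) • v‖ ≤ ‖z n‖ + ‖(t n * z n i₀) • v‖ := norm_sub_le _ _
          _ = ‖z n‖ + ‖t n‖ * ‖z n i₀‖ * ‖v‖ := by rw [norm_smul, norm_mul]
          _ ≤ ‖z n‖ + (‖t₀‖ + 1) * ‖z n‖ * ‖v‖ := by
              have h10 := norm_le_pi_norm (z n) i₀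
              gcongr
          _ = (1 + (‖t₀‖ + 1) * ‖v‖) * ‖z n‖ := by ring
      have h11 : c * ‖z n‖ ^ 2 ≤ (1 + (‖t₀‖ + 1) * ‖v‖) * ‖z n‖ := by
        have h12 : ‖z n‖ ^ 2 ≤ ‖z n‖ ^ D := pow_le_pow_right₀ h1.le hD
        have h13 : c * ‖z n‖ ^ 2 ≤ c * ‖z n‖ ^ D := by gcongr
        linarith
      have h14 : c * ‖z n‖ ≤ 1 + (‖t₀‖ + 1) * ‖v‖ := by
        have h15 : 0 < ‖z n‖ := by linarith
        by_contra hcon2
        push Not at hcon2
        nlinarith
      refine le_trans ?_ (le_max_right _ _)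
      rw [le_div_iff₀ hc]
      linarith
  set B : ℝ := max 1 ((1 + (‖t₀‖ + 1) * ‖v‖) / c) with hB
  have hcpt : IsCompact (Metric.closedBall (0 : Fin m → ℂ) B) := isCompact_closedBall _ _
  obtain ⟨a, -, φ, hφ, hlim⟩ := hcpt.tendsto_subseq (x := z) fun n => by
    rw [mem_closedBall_zero_iff]
    exact hbound n
  have htφ : Tendsto (t ∘ φ) atTop (𝓝 t₀) := htlim.comp hφ.tendsto_atTop
  have hsol : ∀ i, eval a (G i) = a i - t₀ * v i * a i₀ := by
    intro i
    have h1 : Tendsto (fun n => eval ((z ∘ φ) n) (G i)) atTop (𝓝 (eval a (G i))) :=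
      ((MvPolynomial.continuous_eval (G i)).tendsto a).comp hlim
    have h2 : Tendsto (fun n => (z ∘ φ) n i - (t ∘ φ) n * v i * (z ∘ φ) n i₀) atTop
        (𝓝 (a i - t₀ * v i * a i₀)) := by
      have h3 : ∀ j, Tendsto (fun n => (z ∘ φ) n j) atTop (𝓝 (a j)) :=
        fun j => ((continuous_apply j).tendsto a).comp hlim
      exact (h3 i).sub ((htφ.mul_const (v i)).mul (h3 i₀))
    have h4 : (fun n => eval ((z ∘ φ) n) (G i)) =
        fun n => (z ∘ φ) n i - (t ∘ φ) n * v i * (z ∘ φ) n i₀ := by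
      funext n
      exact hz (φ n) i
    rw [h4] at h1
    exact tendsto_nhds_unique h1 h2
  have hqa : ‖eval a q - eval x₀ q‖ ≤ δ := by
    have h1 : Tendsto (fun n => ‖eval ((z ∘ φ) n) q - eval x₀ q‖) atTop
        (𝓝 ‖eval a q - eval x₀ q‖) :=
      ((((MvPolynomial.continuous_eval q).tendsto a).comp hlim).sub_const _).norm
    exact le_of_tendsto h1 (Eventually.of_forall fun n => (hzq (φ n)).le)
  have hax : a = x₀ := by
    by_contra hne
    have haF : a ∈ F := by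
      rw [hF, Finset.mem_erase, Set.Finite.mem_toFinset]
      refine ⟨hne, fun i => ?_⟩
      rw [ev_eqs, hsol i, sub_self]
    rw [hqF a haF, zero_sub, norm_neg, hδ] at hqa
    have := norm_pos_iff.2 hqx
    linarith
  have hfinal : ε ≤ ‖a - x₀‖ := by
    have h1 : Tendsto (fun n => ‖(z ∘ φ) n - x₀‖) atTop (𝓝 ‖a - x₀‖) :=
      (hlim.sub_const _).norm
    exact ge_of_tendsto h1 (Eventually.of_forall fun n => hzε (φ n))
  rw [hax, sub_self, norm_zero] at hfinal
  linarith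

end Pool.Agent.helper37.QA
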