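import Pool.Agent.helper37.QA.Defs
import Pool.Agent.helper37.QA.Persist

/-!
Basic facts on the projective space, iterates and the gap of a trapping region.
-/

set_option autoImplicit false

namespace Pool.Agent.helper37.QA

open MvPolynomial Filter Topology

variable {k d : ℕ}

theorem toPP_cont : Continuous (toPP (k := k)) := continuous_coinduced_rng

theorem toPP_eq {v w : Fin (k + 1) → ℂ} (hv : v ≠ 0) (hw : w ≠ 0) (c : ℂ) (h : c • w = v) :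
    toPP ⟨v, hv⟩ = toPP ⟨w, hw⟩ :=
  (Projectivization.mk_eq_mk_iff' ℂ v w hv hw).2 ⟨c, h⟩

/-- The cone over a subset of projective space. -/
def cone (U : Set (PP k)) : Set (Fin (k + 1) → ℂ) := {x | ∃ h : x ≠ 0, toPP ⟨x, h⟩ ∈ U}

theorem cone_open {U : Set (PP k)} (hU : IsOpen U) : IsOpen (cone U) := by
  have h1 : IsOpen (toPP ⁻¹' U) := hU.preimage toPP_cont
  have h2 : IsOpen {v : Fin (k + 1) → ℂ | v ≠ 0} := isOpen_ne
  have h3 := h2.isOpenMap_subtype_val _ h1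
  convert h3 using 1
  ext x
  constructor
  · rintro ⟨hx, hxU⟩
    exact ⟨⟨x, hx⟩, hxU, rfl⟩
  · rintro ⟨⟨y, hy⟩, hyU, rfl⟩
    exact ⟨hy, hyU⟩

theorem cone_smul {U : Set (PP k)} {x : Fin (k + 1) → ℂ} (hx : x ∈ cone U) {c : ℂ} (hc : c ≠ 0) :
    c • x ∈ cone U := by
  obtain ⟨h, hU⟩ := hx
  refine ⟨smul_ne_zero hc h, ?_⟩
  rw [toPP_eq (smul_ne_zero hc h) h c rfl]
  exact hU

theorem mem_closed {C : Set (PP k)} (hC : IsClosed C) {z : ℕ → Fin (k + 1) → ℂ}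
    {a : Fin (k + 1) → ℂ} (hz : ∀ n, z n ≠ 0) (ha : a ≠ 0) (hlim : Tendsto z atTop (𝓝 a))
    (h : ∀ n, toPP ⟨z n, hz n⟩ ∈ C) : toPP ⟨a, ha⟩ ∈ C := by
  have h1 : Tendsto (fun n => (⟨z n, hz n⟩ : {v : Fin (k + 1) → ℂ // v ≠ 0})) atTop
      (𝓝 ⟨a, ha⟩) := tendsto_subtype_rng.2 hlim
  exact hC.mem_of_tendsto ((toPP_cont.tendsto _).comp h1) (Eventually.of_forall h)

theorem pmap_ne {m : ℕ} {G : Fin m → MvPolynomial (Fin m) ℂ}
    (nd : ∀ x : Fin m → ℂ, (∀ i, eval x (G i) = 0) → x = 0) {x : Fin m → ℂ} (hx : x ≠ 0) :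
    pmap G x ≠ 0 := fun h => hx (nd x fun i => congrFun h i)

theorem map_toPP (f : Endo k d) {x : Fin (k + 1) → ℂ} (hx : x ≠ 0) :
    f.map (toPP ⟨x, hx⟩) = toPP ⟨pmap f.F x, pmap_ne f.nondeg hx⟩ := by
  obtain ⟨a, ha⟩ := Projectivization.exists_smul_eq_mk_rep ℂ x hx
  have h1 : pmap f.F ((toPP ⟨x, hx⟩ : PP k).rep) = (a : ℂ) ^ d • pmap f.F x := by
    change pmap f.F ((Projectivization.mk ℂ x hx).rep) = _
    rw [← ha]
    exact pmap_smul f.hom (a : ℂ) x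
  exact toPP_eq (fun h => (toPP ⟨x, hx⟩ : PP k).rep_nonzero (f.nondeg _ fun i => congrFun h i))
    (pmap_ne f.nondeg hx) ((a : ℂ) ^ d) h1.symm

/-- The polynomials of the iterates. -/
noncomputable def iter {m : ℕ} (F : Fin m → MvPolynomial (Fin m) ℂ) :
    ℕ → Fin m → MvPolynomial (Fin m) ℂ
  | 0 => X
  | n + 1 => fun i => bind₁ (iter F n) (F i)

theorem pmap_iter_succ {m : ℕ} (F : Fin m → MvPolynomial (Fin m) ℂ) (n : ℕ) (x : Fin m → ℂ) :
    pmap (iter F (n + 1)) x = pmap F (pmap (iter F n) x) := by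
  funext i
  change eval x (bind₁ (iter F n) (F i)) = eval (fun j => eval x (iter F n j)) (F i)
  exact eval₂Hom_bind₁ (RingHom.id ℂ) x (iter F n) (F i)

theorem pmap_iter_zero {m : ℕ} (F : Fin m → MvPolynomial (Fin m) ℂ) (x : Fin m → ℂ) :
    pmap (iter F 0) x = x := by
  funext i
  simp [pmap, iter]

theorem pmap_iter_add {m : ℕ} (F : Fin m → MvPolynomial (Fin m) ℂ) (n l : ℕ) (x : Fin m → ℂ) :
    pmap (iter F (n + l)) x = pmap (iter F n) (pmap (iter F l) x) := by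
  induction n with
  | zero => rw [zero_add, pmap_iter_zero]
  | succ n ih => rw [show n + 1 + l = (n + l) + 1 by ring, pmap_iter_succ, ih, pmap_iter_succ]

theorem iter_hom {m : ℕ} {F : Fin m → MvPolynomial (Fin m) ℂ} (hom : ∀ i, (F i).IsHomogeneous d)
    (n : ℕ) : ∀ i, (iter F n i).IsHomogeneous (d ^ n) := by
  induction n with
  | zero => intro i; simpa [iter] using isHomogeneous_X ℂ i
  | succ n ih =>
    intro i
    rw [pow_succ]
    exact (hom i).aeval (iter F n) ih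

theorem iter_nd {m : ℕ} {F : Fin m → MvPolynomial (Fin m) ℂ}
    (nd : ∀ x : Fin m → ℂ, (∀ i, eval x (F i) = 0) → x = 0)
    (n : ℕ) : ∀ x : Fin m → ℂ, (∀ i, eval x (iter F n i) = 0) → x = 0 := by
  induction n with
  | zero =>
    intro x hx
    funext i
    simpa [iter] using hx i
  | succ n ih =>
    intro x hx
    have h1 : pmap (iter F (n + 1)) x = 0 := funext hx
    rw [pmap_iter_succ] at h1
    exact ih x fun i => congrFun (nd _ fun i => congrFun h1 i) i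

theorem map_iter (f : Endo k d) (n : ℕ) {x : Fin (k + 1) → ℂ} (hx : x ≠ 0) :
    f.map^[n] (toPP ⟨x, hx⟩) =
      toPP ⟨pmap (iter f.F n) x, pmap_ne (iter_nd f.nondeg n) hx⟩ := by
  induction n with
  | zero =>
    rw [Function.iterate_zero, id]
    congr 2
    exact (pmap_iter_zero f.F x).symm
  | succ n ih =>
    rw [Function.iterate_succ_apply', ih, map_toPP]
    congr 2
    exact (pmap_iter_succ f.F n x).symm

/-- The gap of a trapping region. -/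
theorem gap {f : Endo k d} {U : Set (PP k)} (hU : IsTrapping f U) :
    ∃ δ : ℝ, 0 < δ ∧ ∀ (z : Fin (k + 1) → ℂ) (hz : z ≠ 0), toPP ⟨z, hz⟩ ∈ closure U →
      ∀ y : Fin (k + 1) → ℂ, ‖y - pmap f.F z‖ < δ * ‖pmap f.F z‖ → y ∈ cone U := by
  by_contra hcon
  push Not at hcon
  have hseq : ∀ n : ℕ, ∃ z : Fin (k + 1) → ℂ, ∃ hz : z ≠ 0, ∃ y : Fin (k + 1) → ℂ,
      toPP ⟨z, hz⟩ ∈ closure U ∧ ‖z‖ = 1 ∧
      ‖y - pmap f.F z‖ ≤ (1 / ((n : ℝ) + 1)) * ‖pmap f.F z‖ ∧ y ∉ cone U := by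
    intro n
    obtain ⟨z, hz, hzU, y, hy, hyU⟩ := hcon (1 / ((n : ℝ) + 1)) (by positivity)
    have hn : ‖z‖ ≠ 0 := norm_ne_zero_iff.2 hz
    have hc : ((‖z‖ : ℂ)⁻¹) ≠ 0 := inv_ne_zero (by exact_mod_cast hn)
    refine ⟨((‖z‖ : ℂ)⁻¹) • z, smul_ne_zero hc hz, ((‖z‖ : ℂ)⁻¹) ^ d • y, ?_, ?_, ?_, ?_⟩
    · rw [toPP_eq (smul_ne_zero hc hz) hz _ rfl]
      exact hzU
    · simp [norm_smul, hn]
    · rw [pmap_smul f.hom, ← smul_sub, norm_smul, norm_smul]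
      have h1 : 0 ≤ ‖((‖z‖ : ℂ)⁻¹) ^ d‖ := norm_nonneg _
      calc ‖((‖z‖ : ℂ)⁻¹) ^ d‖ * ‖y - pmap f.F z‖
          ≤ ‖((‖z‖ : ℂ)⁻¹) ^ d‖ * (1 / ((n : ℝ) + 1) * ‖pmap f.F z‖) := by gcongr
        _ = 1 / ((n : ℝ) + 1) * (‖((‖z‖ : ℂ)⁻¹) ^ d‖ * ‖pmap f.F z‖) := by ring
    · intro hmem
      apply hyU
      have h2 := cone_smul hmem (pow_ne_zero d (inv_ne_zero hc))
      rwa [smul_smul, ← mul_pow, inv_mul_cancel₀ hc, one_pow, one_smul] at h2
  choose z hz y hzU hz1 hy hyU using hseq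
  have hcpt : IsCompact (Metric.sphere (0 : Fin (k + 1) → ℂ) 1) := isCompact_sphere _ _
  obtain ⟨a, ha, φ, hφ, hlim⟩ := hcpt.tendsto_subseq (x := z) fun n => by
    rw [mem_sphere_zero_iff_norm]
    exact hz1 n
  have ha0 : a ≠ 0 := by
    rintro rfl
    simp at ha
  have haU : toPP ⟨a, ha0⟩ ∈ closure U :=
    mem_closed isClosed_closure (fun n => hz (φ n)) ha0 hlim fun n => hzU (φ n)
  have hFa : pmap f.F a ∈ cone U := by
    refine ⟨pmap_ne f.nondeg ha0, ?_⟩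
    rw [← map_toPP f ha0]
    exact hU.2.2 ⟨_, haU, rfl⟩
  have hFlim : Tendsto (fun n => pmap f.F ((z ∘ φ) n)) atTop (𝓝 (pmap f.F a)) :=
    ((pmap_cont f.F).tendsto a).comp hlim
  have hylim : Tendsto (fun n => y (φ n)) atTop (𝓝 (pmap f.F a)) := by
    have h1 : Tendsto (fun n => y (φ n) - pmap f.F ((z ∘ φ) n)) atTop (𝓝 0) := by
      rw [tendsto_zero_iff_norm_tendsto_zero]
      have h2 : Tendsto (fun n => 1 / (((φ n : ℕ) : ℝ) + 1) * ‖pmap f.F ((z ∘ φ) n)‖) atTop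
          (𝓝 (0 * ‖pmap f.F a‖)) :=
        ((tendsto_one_div_add_atTop_nhds_zero_nat (𝕜 := ℝ)).comp hφ.tendsto_atTop).mul hFlim.norm
      rw [zero_mul] at h2
      exact squeeze_zero (fun n => norm_nonneg _) (fun n => hy (φ n)) h2
    have h3 := h1.add hFlim
    simpa using h3
  obtain ⟨n, hn⟩ := (hylim.eventually ((cone_open hU.1).mem_nhds hFa)).exists
  exact hyU (φ n) hn

end Pool.Agent.helper37.QA
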