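import Mathlib

/-!
# Holomorphic endomorphisms of complex projective space, trapping regions, attracting sets

* `PP k` is complex projective space `ℙ^k`, with the quotient topology.
* `Endo k d` is the type of holomorphic endomorphisms of `ℙ^k` of algebraic degree `d`: such a map
  is given by `k + 1` homogeneous polynomials of degree `d` whose only common zero is `0`.
* `IsTrapping f U`: `U` is a trapping region of `f`.
* `attr f U`: the attracting set of a trapping region `U`.
-/

set_option autoImplicit false

namespace Pool.Agent.helper37.QA

open MvPolynomial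

/-- Complex projective space of dimension `k`. -/
abbrev PP (k : ℕ) : Type := Projectivization ℂ (Fin (k + 1) → ℂ)

/-- The class of a nonzero vector. -/
noncomputable def toPP {k : ℕ} (v : {v : Fin (k + 1) → ℂ // v ≠ 0}) : PP k := Projectivization.mk ℂ v.1 v.2

/-- The quotient topology on `ℙ^k`. -/
noncomputable instance instTopPP (k : ℕ) : TopologicalSpace (PP k) :=
  TopologicalSpace.coinduced toPP inferInstance

/-- A holomorphic endomorphism of `ℙ^k` of algebraic degree `d`, given by `k + 1` homogeneous
polynomials of degree `d` without common zeros (other than `0`). -/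
structure Endo (k d : ℕ) where
  /-- The polynomials. -/
  F : Fin (k + 1) → MvPolynomial (Fin (k + 1)) ℂ
  /-- They are homogeneous of degree `d`. -/
  hom : ∀ i, (F i).IsHomogeneous d
  /-- Their only common zero is `0`. -/
  nondeg : ∀ x : Fin (k + 1) → ℂ, (∀ i, eval x (F i) = 0) → x = 0

/-- The map `[x] ↦ [F₀(x) : ... : F_k(x)]` of `ℙ^k` to itself. -/
noncomputable def Endo.map {k d : ℕ} (f : Endo k d) (x : PP k) : PP k :=
  Projectivization.mk ℂ (fun i => eval x.rep (f.F i))
    (fun h => x.rep_nonzero (f.nondeg _ fun i => congrFun h i))

/-- `U` is a trapping region of `f`: a nonempty open set with `f (closure U) ⊆ U`. -/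
def IsTrapping {k d : ℕ} (f : Endo k d) (U : Set (PP k)) : Prop :=
  IsOpen U ∧ U.Nonempty ∧ f.map '' closure U ⊆ U

/-- The attracting set of a trapping region `U`: the intersection of the sets `f^n(U)`. -/
def attr {k d : ℕ} (f : Endo k d) (U : Set (PP k)) : Set (PP k) :=
  ⋂ n : ℕ, f.map^[n] '' U

end Pool.Agent.helper37.QA
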