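import Mathlib

/-!
Finiteness of `R[x] / (G(x) - ℓ(x))` over `R = ℂ[t]`, where `G` is homogeneous of degree `≥ 2`
without common zeros and `ℓ` has degree at most one.
-/

set_option autoImplicit false

namespace Pool.Agent.helper37.QA

open MvPolynomial

attribute [local instance] MvPolynomial.gradedAlgebra in
/-- The homogeneous component of a product with a homogeneous polynomial. -/
theorem homComp_mul {σ : Type*} {k : Type*} [CommRing k] {D N : ℕ} (hDN : D ≤ N)
    {c g : MvPolynomial σ k} (hg : g.IsHomogeneous D) :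
    homogeneousComponent N (c * g) = homogeneousComponent (N - D) c * g := by
  have h := DirectSum.coe_decompose_mul_of_right_mem_of_le (homogeneousSubmodule σ k)
    (a := c) (b := g) (i := D) (n := N) ((mem_homogeneousSubmodule D g).2 hg) hDN
  have e : ∀ (φ : MvPolynomial σ k) (i : ℕ),
      ((DirectSum.decompose (homogeneousSubmodule σ k) φ i :
        homogeneousSubmodule σ k i) : MvPolynomial σ k) = homogeneousComponent i φ :=
    fun φ i => decomposition.decompose'_apply φ i
  rw [e, e] at h
  exact h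

/-- Nullstellensatz with homogeneous coefficients. -/
theorem pow_mem {m : ℕ} {D : ℕ} {G : Fin m → MvPolynomial (Fin m) ℂ}
    (hom : ∀ i, (G i).IsHomogeneous D) (nd : ∀ x : Fin m → ℂ, (∀ i, eval x (G i) = 0) → x = 0)
    (i : Fin m) :
    ∃ N₀ : ℕ, ∀ N, N₀ ≤ N → ∃ c : Fin m → MvPolynomial (Fin m) ℂ,
      (∀ j, (c j).IsHomogeneous (N - D)) ∧ (X i : MvPolynomial (Fin m) ℂ) ^ N = ∑ j, c j * G j := by
  have h1 : (X i : MvPolynomial (Fin m) ℂ) ∈ (Ideal.span (Set.range G)).radical := by
    rw [← vanishingIdeal_zeroLocus_eq_radical (K := ℂ), mem_vanishingIdeal_iff]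
    intro x hx
    have hx0 : x = 0 := by
      apply nd
      intro j
      have := (mem_zeroLocus_iff.1 hx) (G j) (Ideal.subset_span ⟨j, rfl⟩)
      simpa [aeval_eq_eval] using this
    simp [hx0]
  obtain ⟨n, hn⟩ := h1
  refine ⟨n + D, fun N hN => ?_⟩
  have h2 : (X i : MvPolynomial (Fin m) ℂ) ^ N ∈ Ideal.span (Set.range G) := by
    have : (X i : MvPolynomial (Fin m) ℂ) ^ N = X i ^ (N - n) * X i ^ n := by
      rw [← pow_add]
      congr 1
      omega
    rw [this]
    exact Ideal.mul_mem_left _ _ hn
  rw [Ideal.span, Submodule.mem_span_range_iff_exists_fun] at h2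
  obtain ⟨c, hc⟩ := h2
  refine ⟨fun j => homogeneousComponent (N - D) (c j), fun j => ?_, ?_⟩
  · exact homogeneousComponent_isHomogeneous (N - D) (c j)
  · have h3 : homogeneousComponent N ((X i : MvPolynomial (Fin m) ℂ) ^ N) = X i ^ N :=
      homogeneousComponent_eq_self (isHomogeneous_X_pow i N)
    rw [← h3, ← hc, map_sum]
    refine Finset.sum_congr rfl fun j _ => ?_
    rw [smul_eq_mul]
    exact homComp_mul (by omega) (hom j)

section

variable {R : Type*} [CommRing R] [Algebra ℂ R] {m : ℕ}

/-- The perturbed equations. -/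
noncomputable def eqs (G : Fin m → MvPolynomial (Fin m) ℂ) (ell : Fin m → MvPolynomial (Fin m) R)
    (i : Fin m) : MvPolynomial (Fin m) R :=
  map (algebraMap ℂ R) (G i) - ell i

/-- The ideal of the perturbed equations. -/
noncomputable def eqI (G : Fin m → MvPolynomial (Fin m) ℂ)
    (ell : Fin m → MvPolynomial (Fin m) R) : Ideal (MvPolynomial (Fin m) R) :=
  Ideal.span (Set.range (eqs G ell))

theorem red_one {D : ℕ} (hD : 2 ≤ D) {G : Fin m → MvPolynomial (Fin m) ℂ}
    (hom : ∀ i, (G i).IsHomogeneous D) (nd : ∀ x : Fin m → ℂ, (∀ i, eval x (G i) = 0) → x = 0)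
    {ell : Fin m → MvPolynomial (Fin m) R} (hl : ∀ i, (ell i).totalDegree ≤ 1) :
    ∃ N : ℕ, 1 ≤ N ∧ ∀ i, ∃ r : MvPolynomial (Fin m) R, r.totalDegree < N ∧
      X i ^ N - r ∈ eqI G ell := by
  choose N₀ hN₀ using fun i => pow_mem hom nd i
  set N := (∑ i, N₀ i) + D with hN
  refine ⟨N, by omega, fun i => ?_⟩
  have hi : N₀ i ≤ N := by
    have := Finset.single_le_sum (f := N₀) (fun j _ => Nat.zero_le _) (Finset.mem_univ i)
    omega
  obtain ⟨c, hc1, hc2⟩ := hN₀ i N hi
  refine ⟨∑ j, map (algebraMap ℂ R) (c j) * ell j, ?_, ?_⟩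
  · have h1 : ∀ j ∈ (Finset.univ : Finset (Fin m)),
        (map (algebraMap ℂ R) (c j) * ell j).totalDegree ≤ N - D + 1 := by
      intro j _
      refine (totalDegree_mul _ _).trans ?_
      have h2 := ((hc1 j).map (algebraMap ℂ R)).totalDegree_le
      have h4 := hl j
      omega
    have h2 := totalDegree_finsetSum_le h1
    omega
  · have h1 : (X i : MvPolynomial (Fin m) R) ^ N =
        ∑ j, map (algebraMap ℂ R) (c j) * map (algebraMap ℂ R) (G j) := by
      have := congrArg (map (algebraMap ℂ R)) hc2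
      simpa using this
    rw [h1, ← Finset.sum_sub_distrib]
    refine Ideal.sum_mem _ fun j _ => ?_
    rw [← mul_sub]
    exact Ideal.mul_mem_left _ _ (Ideal.subset_span ⟨j, rfl⟩)

theorem red_all {I : Ideal (MvPolynomial (Fin m) R)} {N : ℕ}
    (h : ∀ i, ∃ r : MvPolynomial (Fin m) R, r.totalDegree < N ∧ X i ^ N - r ∈ I) :
    restrictTotalDegree (Fin m) R (m * N) ⊔ I.restrictScalars R = ⊤ := by
  set M := restrictTotalDegree (Fin m) R (m * N) ⊔ I.restrictScalars R with hM
  have key : ∀ n : ℕ, ∀ p : MvPolynomial (Fin m) R, p.totalDegree ≤ n → p ∈ M := by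
    intro n
    induction n with
    | zero =>
      intro p hp
      refine Submodule.mem_sup_left ?_
      rw [mem_restrictTotalDegree]
      omega
    | succ n ih =>
      intro p hp
      rw [← support_sum_monomial_coeff p]
      refine Submodule.sum_mem _ fun α hα => ?_
      have hαn : α.degree ≤ n + 1 := by
        have : α.degree ≤ p.totalDegree := le_totalDegree hα
        omega
      by_cases hle : α.degree ≤ m * N
      · refine Submodule.mem_sup_left ?_
        rw [mem_restrictTotalDegree]
        exact (totalDegree_monomial_le α (coeff α p)).trans hle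
      · push Not at hle
        obtain ⟨i, hi⟩ : ∃ i, N ≤ α i := by
          by_contra hcon
          push Not at hcon
          have h1 : α.degree = ∑ i, α i := Finsupp.degree_eq_sum α
          have h2 : ∑ i, α i ≤ ∑ _i : Fin m, N := Finset.sum_le_sum fun i _ => (hcon i).le
          simp at h2
          omega
        obtain ⟨r, hr, hrI⟩ := h i
        set β : Fin m →₀ ℕ := α - Finsupp.single i N with hβ
        have hαβ : α = β + Finsupp.single i N := by
          rw [hβ, tsub_add_cancel_of_le]
          rw [Finsupp.single_le_iff]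
          exact hi
        have hdeg : α.degree = β.degree + N := by
          rw [hαβ, map_add]
          simp
        have h1 : monomial α (coeff α p) = monomial β (coeff α p) * (X i ^ N - r) +
            monomial β (coeff α p) * r := by
          rw [mul_sub, sub_add_cancel, X_pow_eq_monomial, monomial_mul, mul_one, ← hαβ]
        rw [h1]
        refine Submodule.add_mem _ (Submodule.mem_sup_right ?_) (ih _ ?_)
        · exact Ideal.mul_mem_left _ _ hrI
        · refine (totalDegree_mul _ _).trans ?_
          have h2 : (monomial β (coeff α p)).totalDegree ≤ β.degree :=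
            totalDegree_monomial_le β (coeff α p)
          omega
  rw [eq_top_iff]
  intro p _
  exact key _ p le_rfl

theorem finite_quot {D : ℕ} (hD : 2 ≤ D) {G : Fin m → MvPolynomial (Fin m) ℂ}
    (hom : ∀ i, (G i).IsHomogeneous D) (nd : ∀ x : Fin m → ℂ, (∀ i, eval x (G i) = 0) → x = 0)
    {ell : Fin m → MvPolynomial (Fin m) R} (hl : ∀ i, (ell i).totalDegree ≤ 1)
    (J : Ideal (MvPolynomial (Fin m) R)) (hJ : eqI G ell ≤ J) :
    Module.Finite R (MvPolynomial (Fin m) R ⧸ J) := by
  obtain ⟨N, -, hN⟩ := red_one hD hom nd hl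
  have h1 := red_all (I := J) (N := N) fun i => by
    obtain ⟨r, hr, hr2⟩ := hN i
    exact ⟨r, hr, hJ hr2⟩
  let φ : restrictTotalDegree (Fin m) R (m * N) →ₗ[R] (MvPolynomial (Fin m) R ⧸ J) :=
    (Ideal.Quotient.mkₐ R J).toLinearMap ∘ₗ (restrictTotalDegree (Fin m) R (m * N)).subtype
  refine Module.Finite.of_surjective φ ?_
  intro y
  obtain ⟨p, rfl⟩ := Ideal.Quotient.mk_surjective y
  have hp : p ∈ restrictTotalDegree (Fin m) R (m * N) ⊔ J.restrictScalars R := by
    rw [h1]
    trivial
  obtain ⟨a, ha, b, hb, hab⟩ := Submodule.mem_sup.1 hp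
  refine ⟨⟨a, ha⟩, ?_⟩
  change Ideal.Quotient.mk J a = Ideal.Quotient.mk J p
  rw [Ideal.Quotient.eq, ← hab]
  have : a - (a + b) = -b := by ring
  rw [this]
  exact neg_mem hb

end

end Pool.Agent.helper37.QA
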