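import Mathlib

/-!
Heights of maximal ideals in polynomial rings in finitely many variables.
-/

set_option autoImplicit false

namespace Pool.Agent.helper37.QA

open MvPolynomial

/-- Let `R` be a Noetherian Jacobson ring and `P` a maximal ideal of `R[X₁, ..., X_m]`. Then the
height of `P` is `m` plus the height of `P ∩ R`. -/
theorem height_mvPoly {R : Type*} [CommRing R] [IsNoetherianRing R] [IsJacobsonRing R] :
    ∀ (m : ℕ) (P : Ideal (MvPolynomial (Fin m) R)) [P.IsMaximal],
      P.height = (P.comap (C : R →+* MvPolynomial (Fin m) R)).height + m := by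
  intro m
  induction m with
  | zero =>
    intro P hP
    have e : R ≃+* MvPolynomial (Fin 0) R := (isEmptyRingEquiv R (Fin 0)).symm
    have he : (C : R →+* MvPolynomial (Fin 0) R) =
        ((isEmptyRingEquiv R (Fin 0)).symm : R →+* MvPolynomial (Fin 0) R) := by
      ext r
      simp
    rw [he]
    simp only [Nat.cast_zero, add_zero]
    exact (RingEquiv.height_comap (isEmptyRingEquiv R (Fin 0)).symm P).symm
  | succ m ih =>
    intro P hP
    set e := (finSuccEquiv R m).toRingEquiv with he
    set P' : Ideal (Polynomial (MvPolynomial (Fin m) R)) := P.comap e.symm with hP'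
    have hmax : P'.IsMaximal := Ideal.comap_isMaximal_of_equiv e.symm
    have h1 : P'.height = P.height := RingEquiv.height_comap e.symm P
    set Q : Ideal (MvPolynomial (Fin m) R) := P'.comap Polynomial.C with hQ
    have hQmax : Q.IsMaximal := Polynomial.isMaximal_comap_C_of_isJacobsonRing P'
    have hlies : P'.LiesOver Q := ⟨rfl⟩
    have h2 : P'.height = Q.height + 1 := Polynomial.height_eq_height_add_one Q P'
    have h3 := ih Q
    have h4 : Q.comap (C : R →+* MvPolynomial (Fin m) R) =
        P.comap (C : R →+* MvPolynomial (Fin (m + 1)) R) := by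
      ext r
      have h5 : e.symm (Polynomial.C (C r)) = (C r : MvPolynomial (Fin (m + 1)) R) := by
        exact RingHom.congr_fun (finSuccEquiv_comp_C_eq_C (R := R) m) r
      change e.symm (Polynomial.C (C r)) ∈ P ↔ C r ∈ P
      rw [h5]
    rw [← h1, h2, h3, h4]
    push_cast
    ring

end Pool.Agent.helper37.QA
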