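import Pool.Agent.helper37.QA.Cone

/-!
Every trapping region contains a periodic point.
-/

set_option autoImplicit false

namespace Pool.Agent.helper37.QA

open MvPolynomial Filter Topology

variable {k d : ℕ}

theorem exists_norm_eq {m : ℕ} (a : Fin (m + 1) → ℂ) : ∃ i, ‖a i‖ = ‖a‖ := by
  obtain ⟨i, -, hi⟩ := Finset.exists_mem_eq_sup' (s := (Finset.univ : Finset (Fin (m + 1))))
    Finset.univ_nonempty (fun i => ‖a i‖)
  refine ⟨i, le_antisymm (norm_le_pi_norm a i) ?_⟩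
  rw [← hi]
  refine (pi_norm_le_iff_of_nonneg ?_).2 fun j => ?_
  · exact (norm_nonneg (a i)).trans (Finset.le_sup' (fun i => ‖a i‖) (Finset.mem_univ i))
  · exact Finset.le_sup' (fun i => ‖a i‖) (Finset.mem_univ j)

/-- A solution in the closure of a trapping region lies in the region. -/
theorem sol_mem {f : Endo k d} {U : Set (PP k)} (hU : IsTrapping f U) {δ : ℝ}
    (hδ : ∀ (z : Fin (k + 1) → ℂ) (hz : z ≠ 0), toPP ⟨z, hz⟩ ∈ closure U →
      ∀ y : Fin (k + 1) → ℂ, ‖y - pmap f.F z‖ < δ * ‖pmap f.F z‖ → y ∈ cone U)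
    {n : ℕ} {v : Fin (k + 1) → ℂ} (hv : ‖v‖ < δ) {i₀ : Fin (k + 1)} (hvi : v i₀ = 0)
    {t : ℂ} (ht : ‖t‖ ≤ 1) {x : Fin (k + 1) → ℂ} (hx : x ≠ 0) (hxU : toPP ⟨x, hx⟩ ∈ closure U)
    (h : ∀ i, eval x (iter f.F (n + 1) i) = x i - t * v i * x i₀) : x ∈ cone U := by
  have hmem : ∀ l : ℕ, toPP ⟨pmap (iter f.F l) x, pmap_ne (iter_nd f.nondeg l) hx⟩ ∈
      closure U := by
    intro l
    rw [← map_iter]
    induction l with
    | zero => exact hxU
    | succ l ih =>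
      rw [Function.iterate_succ_apply']
      exact subset_closure (hU.2.2 ⟨_, ih, rfl⟩)
  refine hδ _ (pmap_ne (iter_nd f.nondeg n) hx) (hmem n) x ?_
  set w := pmap f.F (pmap (iter f.F n) x) with hw
  have hw' : ∀ i, w i = x i - t * v i * x i₀ := by
    intro i
    rw [hw, ← pmap_iter_succ]
    exact h i
  have hw0 : w ≠ 0 := pmap_ne f.nondeg (pmap_ne (iter_nd f.nondeg n) hx)
  have hwi : w i₀ = x i₀ := by
    rw [hw' i₀, hvi]
    ring
  have hxw : x - w = (t * w i₀) • v := by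
    funext i
    simp only [Pi.sub_apply, Pi.smul_apply, smul_eq_mul]
    rw [hw' i, hwi]
    ring
  rw [hxw, norm_smul, norm_mul]
  have h1 := norm_le_pi_norm w i₀
  have h2 : 0 < ‖w‖ := norm_pos_iff.2 hw0
  calc ‖t‖ * ‖w i₀‖ * ‖v‖ ≤ 1 * ‖w‖ * ‖v‖ := by gcongr
    _ = ‖v‖ * ‖w‖ := by ring
    _ < δ * ‖w‖ := by gcongr

/-- The continuation argument. -/
theorem continuation {f : Endo k d} {U : Set (PP k)} (hU : IsTrapping f U) {δ : ℝ}
    (hδ : ∀ (z : Fin (k + 1) → ℂ) (hz : z ≠ 0), toPP ⟨z, hz⟩ ∈ closure U →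
      ∀ y : Fin (k + 1) → ℂ, ‖y - pmap f.F z‖ < δ * ‖pmap f.F z‖ → y ∈ cone U)
    {n : ℕ} (hD : 2 ≤ d ^ (n + 1)) {v : Fin (k + 1) → ℂ} (hv : ‖v‖ < δ) {i₀ : Fin (k + 1)}
    (hvi : v i₀ = 0)
    {x : Fin (k + 1) → ℂ} (hx : x ∈ cone U)
    (h : ∀ i, eval x (iter f.F (n + 1) i) = x i - 1 * v i * x i₀) :
    ∃ y ∈ cone U, ∀ i, eval y (iter f.F (n + 1) i) = y i := by
  have hom := iter_hom f.hom (n + 1)
  have nd := iter_nd f.nondeg (n + 1)
  set T : Set ℝ := {t : ℝ | 0 ≤ t ∧ t ≤ 1 ∧ ∃ y ∈ cone U,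
    ∀ i, eval y (iter f.F (n + 1) i) = y i - (t : ℂ) * v i * y i₀} with hT
  have h1T : (1 : ℝ) ∈ T := ⟨zero_le_one, le_rfl, x, hx, by simpa using h⟩
  have hbdd : BddBelow T := ⟨0, fun t ht => ht.1⟩
  have hne : T.Nonempty := ⟨1, h1T⟩
  obtain ⟨u, -, hulim, huT⟩ := exists_seq_tendsto_sInf hne hbdd
  set s := sInf T with hs
  have hs0 : 0 ≤ s := le_csInf hne fun t ht => ht.1
  have hs1 : s ≤ 1 := csInf_le hbdd h1T
  -- the infimum is attained
  choose hu0 hu1 y hyU hy using huT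
  obtain ⟨c, C, hc, hC, hcC⟩ := pmap_bounds hom nd
  have hy0 : ∀ j, y j ≠ 0 := fun j => (hyU j).1
  have hnorm : ∀ j, ‖pmap (iter f.F (n + 1)) (y j)‖ ≤ (1 + ‖v‖) * ‖y j‖ ∧
      ‖y j‖ ≤ (1 + ‖v‖) * ‖pmap (iter f.F (n + 1)) (y j)‖ := by
    intro j
    set w := pmap (iter f.F (n + 1)) (y j) with hw
    have hw' : ∀ i, w i = y j i - (u j : ℂ) * v i * y j i₀ := fun i => hy j i
    have hwi : w i₀ = y j i₀ := by
      rw [hw' i₀, hvi]
      ring
    have hut : ‖(u j : ℂ)‖ ≤ 1 := by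
      rw [Complex.norm_real, Real.norm_eq_abs, abs_le]
      constructor <;> linarith [hu0 j, hu1 j]
    have e1 : w = y j - ((u j : ℂ) * y j i₀) • v := by
      funext i
      simp only [Pi.sub_apply, Pi.smul_apply, smul_eq_mul]
      rw [hw' i]
      ring
    have e2 : y j = w + ((u j : ℂ) * w i₀) • v := by
      rw [hwi, e1]
      simp
    have h3 : ∀ z : Fin (k + 1) → ℂ, ‖((u j : ℂ) * z i₀) • v‖ ≤ ‖v‖ * ‖z‖ := by
      intro z
      rw [norm_smul, norm_mul]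
      have h4 := norm_le_pi_norm z i₀
      calc ‖(u j : ℂ)‖ * ‖z i₀‖ * ‖v‖ ≤ 1 * ‖z‖ * ‖v‖ := by gcongr
        _ = ‖v‖ * ‖z‖ := by ring
    constructor
    · rw [e1]
      refine (norm_sub_le _ _).trans ?_
      linarith [h3 (y j)]
    · have e4 : ‖y j‖ ≤ ‖w‖ + ‖((u j : ℂ) * w i₀) • v‖ := by
        conv_lhs => rw [e2]
        exact norm_add_le _ _
      linarith [h3 w]
  have hupper : ∀ j, ‖y j‖ ≤ max 1 ((1 + ‖v‖) / c) := by
    intro j
    by_cases h1 : ‖y j‖ ≤ 1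
    · exact h1.trans (le_max_left _ _)
    · push Not at h1
      refine le_trans ?_ (le_max_right _ _)
      rw [le_div_iff₀ hc]
      have h2 := (hcC (y j) (hy0 j)).1
      have h3 : ‖y j‖ ^ 2 ≤ ‖y j‖ ^ (d ^ (n + 1)) := pow_le_pow_right₀ h1.le hD
      have h4 : c * ‖y j‖ ^ 2 ≤ c * ‖y j‖ ^ (d ^ (n + 1)) := by gcongr
      have h5 := (hnorm j).1
      by_contra hcon
      push Not at hcon
      nlinarith
  have hlower : ∀ j, 1 / ((1 + ‖v‖) * C + 1) ≤ ‖y j‖ := by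
    intro j
    have h2 := (hcC (y j) (hy0 j)).2
    have h5 := (hnorm j).2
    have hypos : 0 < ‖y j‖ := norm_pos_iff.2 (hy0 j)
    have hA : 0 < (1 + ‖v‖) * C + 1 := by positivity
    rw [div_le_iff₀ hA]
    by_contra hcon
    push Not at hcon
    have h6 : ‖y j‖ < 1 := by
      have : ‖y j‖ * 1 ≤ ‖y j‖ * ((1 + ‖v‖) * C + 1) := by
        have : (1 : ℝ) ≤ (1 + ‖v‖) * C + 1 := by
          have : 0 ≤ (1 + ‖v‖) * C := by positivity
          linarith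
        gcongr
      linarith
    have h7 : ‖y j‖ ^ (d ^ (n + 1)) ≤ ‖y j‖ ^ 2 := pow_le_pow_of_le_one hypos.le h6.le hD
    have h8 : ‖y j‖ ≤ (1 + ‖v‖) * (C * ‖y j‖ ^ 2) := by
      calc ‖y j‖ ≤ (1 + ‖v‖) * ‖pmap (iter f.F (n + 1)) (y j)‖ := h5
        _ ≤ (1 + ‖v‖) * (C * ‖y j‖ ^ (d ^ (n + 1))) := by gcongr
        _ ≤ (1 + ‖v‖) * (C * ‖y j‖ ^ 2) := by gcongr
    have h9 : 1 ≤ (1 + ‖v‖) * C * ‖y j‖ := by
      have h10 : ‖y j‖ * 1 ≤ ‖y j‖ * ((1 + ‖v‖) * C * ‖y j‖) := by nlinarith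
      exact le_of_mul_le_mul_left h10 hypos
    nlinarith
  have hcpt : IsCompact (Metric.closedBall (0 : Fin (k + 1) → ℂ) (max 1 ((1 + ‖v‖) / c))) :=
    isCompact_closedBall _ _
  obtain ⟨a, -, φ, hφ, hlim⟩ := hcpt.tendsto_subseq (x := y) fun j => by
    rw [mem_closedBall_zero_iff]
    exact hupper j
  have ha0 : a ≠ 0 := by
    have h1 : 1 / ((1 + ‖v‖) * C + 1) ≤ ‖a‖ :=
      ge_of_tendsto hlim.norm (Eventually.of_forall fun j => hlower (φ j))
    rw [← norm_pos_iff]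
    refine lt_of_lt_of_le ?_ h1
    positivity
  have haU : toPP ⟨a, ha0⟩ ∈ closure U :=
    mem_closed isClosed_closure (fun j => hy0 (φ j)) ha0 hlim fun j =>
      subset_closure (hyU (φ j)).2
  have hulim' : Tendsto (fun j => ((u (φ j) : ℝ) : ℂ)) atTop (𝓝 (s : ℂ)) :=
    (Complex.continuous_ofReal.tendsto s).comp (hulim.comp hφ.tendsto_atTop)
  have hsol : ∀ i, eval a (iter f.F (n + 1) i) = a i - (s : ℂ) * v i * a i₀ := by
    intro i
    have h1 : Tendsto (fun j => eval ((y ∘ φ) j) (iter f.F (n + 1) i)) atTop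
        (𝓝 (eval a (iter f.F (n + 1) i))) :=
      ((MvPolynomial.continuous_eval (iter f.F (n + 1) i)).tendsto a).comp hlim
    have h3 : ∀ l, Tendsto (fun j => (y ∘ φ) j l) atTop (𝓝 (a l)) :=
      fun l => ((continuous_apply l).tendsto a).comp hlim
    have h2 : Tendsto (fun j => (y ∘ φ) j i - ((u (φ j) : ℝ) : ℂ) * v i * (y ∘ φ) j i₀) atTop
        (𝓝 (a i - (s : ℂ) * v i * a i₀)) :=
      (h3 i).sub ((hulim'.mul_const (v i)).mul (h3 i₀))
    have h4 : (fun j => eval ((y ∘ φ) j) (iter f.F (n + 1) i)) =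
        fun j => (y ∘ φ) j i - ((u (φ j) : ℝ) : ℂ) * v i * (y ∘ φ) j i₀ := by
      funext j
      exact hy (φ j) i
    rw [h4] at h1
    exact tendsto_nhds_unique h1 h2
  have hsnorm : ‖(s : ℂ)‖ ≤ 1 := by
    rw [Complex.norm_real, Real.norm_eq_abs, abs_le]
    constructor <;> linarith
  have haC : a ∈ cone U := sol_mem hU hδ hv hvi hsnorm ha0 haU hsol
  -- the infimum is zero
  have hszero : s = 0 := by
    by_contra hsne
    have hspos : 0 < s := lt_of_le_of_ne hs0 (Ne.symm hsne)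
    obtain ⟨ε, hε, hball⟩ := Metric.isOpen_iff.1 (cone_open hU.1) a haC
    obtain ⟨η, hη, hpers⟩ := persist hD hom nd v i₀ hsol hε
    set t : ℝ := max 0 (s - η / 2) with ht
    have hts : t < s := max_lt hspos (by linarith)
    have ht0 : 0 ≤ t := le_max_left _ _
    have htη : s - η / 2 ≤ t := le_max_right _ _
    obtain ⟨z, hz, hza⟩ := hpers (t : ℂ) (by
      rw [← Complex.ofReal_sub, Complex.norm_real, Real.norm_eq_abs, abs_lt]
      constructor <;> linarith)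
    have hzT : t ∈ T := by
      refine ⟨ht0, by linarith, z, hball ?_, hz⟩
      rw [Metric.mem_ball, dist_eq_norm]
      exact hza
    have := csInf_le hbdd hzT
    linarith
  refine ⟨a, haC, fun i => ?_⟩
  rw [hsol i, hszero]
  simp

/-- A trapping region contains a periodic point. -/
theorem exists_periodic (hd : 2 ≤ d) {f : Endo k d} {U : Set (PP k)} (hU : IsTrapping f U) :
    ∃ x ∈ U, ∃ n : ℕ, 0 < n ∧ f.map^[n] x = x := by
  obtain ⟨δ, hδpos, hδ⟩ := gap hU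
  obtain ⟨x₀, hx₀⟩ := hU.2.1
  obtain ⟨z₀, hz₀⟩ : ∃ z : {v : Fin (k + 1) → ℂ // v ≠ 0}, toPP z = x₀ :=
    ⟨⟨x₀.rep, x₀.rep_nonzero⟩, x₀.mk_rep⟩
  obtain ⟨z₀, hz0⟩ := z₀
  have hmem : ∀ l : ℕ, toPP ⟨pmap (iter f.F l) z₀, pmap_ne (iter_nd f.nondeg l) hz0⟩ ∈ U := by
    intro l
    rw [← map_iter f l hz0]
    induction l with
    | zero => rw [Function.iterate_zero, id, hz₀]; exact hx₀
    | succ l ih =>
      rw [Function.iterate_succ_apply']
      exact hU.2.2 ⟨_, subset_closure ih, rfl⟩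
  -- normalised orbit
  set w : ℕ → Fin (k + 1) → ℂ := fun l => pmap (iter f.F l) z₀ with hw
  have hw0 : ∀ l, w l ≠ 0 := fun l => pmap_ne (iter_nd f.nondeg l) hz0
  have hwn : ∀ l, (‖w l‖ : ℂ) ≠ 0 := fun l => by
    exact_mod_cast norm_ne_zero_iff.2 (hw0 l)
  set y : ℕ → Fin (k + 1) → ℂ := fun l => ((‖w l‖ : ℂ)⁻¹) • w l with hy
  have hy1 : ∀ l, ‖y l‖ = 1 := by
    intro l
    have : ‖w l‖ ≠ 0 := norm_ne_zero_iff.2 (hw0 l)
    simp [hy, norm_smul, this]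
  have hcpt : IsCompact (Metric.sphere (0 : Fin (k + 1) → ℂ) 1) := isCompact_sphere _ _
  obtain ⟨a', -, φ, hφ, hlim⟩ := hcpt.tendsto_subseq (x := y) fun j => by
    rw [mem_sphere_zero_iff_norm]
    exact hy1 j
  set ε : ℝ := min (1 / 2) (δ / 4) with hε
  have hεpos : 0 < ε := lt_min (by norm_num) (by positivity)
  obtain ⟨N, hN⟩ := Metric.cauchySeq_iff.1 hlim.cauchySeq ε hεpos
  set i := φ N with hi
  set j := φ (N + 1) with hj
  have hij : i < j := hφ (Nat.lt_succ_self N)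
  have hclose : ‖y i - y j‖ < ε := by
    have := hN N le_rfl (N + 1) (Nat.le_succ N)
    rwa [dist_eq_norm] at this
  obtain ⟨n, hn⟩ : ∃ n, j = (n + 1) + i := ⟨j - i - 1, by omega⟩
  -- the data
  set b := y i with hb
  set a := y j with ha
  have ha1 : ‖a‖ = 1 := hy1 j
  have hb1 : ‖b‖ = 1 := hy1 i
  obtain ⟨i₀, hi₀⟩ := exists_norm_eq a
  rw [ha1] at hi₀
  have hai : a i₀ ≠ 0 := by
    rw [← norm_ne_zero_iff, hi₀]
    exact one_ne_zero
  have hbai : ‖b i₀ - a i₀‖ < ε := lt_of_le_of_lt (norm_le_pi_norm (b - a) i₀) hclose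
  set el : ℂ := b i₀ / a i₀ with hel
  have hel1 : ‖el - 1‖ < ε := by
    rw [hel, div_sub_one hai, norm_div, hi₀, div_one]
    exact hbai
  have hε2 : ε ≤ 1 / 2 := min_le_left _ _
  have hε4 : ε ≤ δ / 4 := min_le_right _ _
  have helnorm : 1 / 2 < ‖el‖ := by
    have h1 : ‖(1 : ℂ)‖ - ‖el - 1‖ ≤ ‖el‖ := by
      have := norm_sub_norm_le (1 : ℂ) (1 - el)
      rw [norm_sub_rev 1 el, sub_sub_cancel] at this
      exact this
    rw [norm_one] at h1
    linarith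
  have hel0 : el ≠ 0 := by
    rw [← norm_pos_iff]
    linarith
  set v : Fin (k + 1) → ℂ := (a i₀)⁻¹ • (el⁻¹ • b - a) with hv
  have hvi : v i₀ = 0 := by
    have h1 : el⁻¹ * b i₀ = a i₀ := by
      rw [hel, inv_div, div_mul_cancel₀]
      intro h0
      apply hel0
      rw [hel, h0, zero_div]
    simp only [hv, Pi.smul_apply, Pi.sub_apply, smul_eq_mul]
    rw [h1]
    ring
  have hvδ : ‖v‖ < δ := by
    have h1 : ‖v‖ = ‖el⁻¹ • b - a‖ := by
      rw [hv, norm_smul, norm_inv, hi₀]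
      simp
    have h2 : el⁻¹ • b - a = (b - a) + (el⁻¹ - 1) • b := by
      rw [sub_smul, one_smul]
      abel
    have h3 : ‖el⁻¹ - 1‖ ≤ 2 * ε := by
      have h4 : el⁻¹ - 1 = -(el - 1) / el := by
        field_simp
        ring
      rw [h4, norm_div, norm_neg, div_le_iff₀ (by linarith)]
      nlinarith
    rw [h1, h2]
    calc ‖(b - a) + (el⁻¹ - 1) • b‖ ≤ ‖b - a‖ + ‖(el⁻¹ - 1) • b‖ := norm_add_le _ _
      _ = ‖b - a‖ + ‖el⁻¹ - 1‖ * 1 := by rw [norm_smul, hb1]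
      _ < ε + 2 * ε := by linarith
      _ < δ := by linarith
  -- the image of `b`
  obtain ⟨lam, hlam0, hlam⟩ : ∃ lam : ℂ, lam ≠ 0 ∧ pmap (iter f.F (n + 1)) b = lam • a := by
    have h1 : pmap (iter f.F (n + 1)) b =
        ((‖w i‖ : ℂ)⁻¹) ^ (d ^ (n + 1)) • w j := by
      rw [hb, hy]
      change pmap (iter f.F (n + 1)) (((‖w i‖ : ℂ)⁻¹) • w i) = _
      rw [pmap_smul (iter_hom f.hom (n + 1)), hn, hw]
      exact congrArg _ (pmap_iter_add f.F (n + 1) i z₀).symm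
    have h2 : w j = (‖w j‖ : ℂ) • a := by
      change w j = (‖w j‖ : ℂ) • (((‖w j‖ : ℂ)⁻¹) • w j)
      rw [smul_smul, mul_inv_cancel₀ (hwn j), one_smul]
    refine ⟨((‖w i‖ : ℂ)⁻¹) ^ (d ^ (n + 1)) * (‖w j‖ : ℂ), ?_, ?_⟩
    · exact mul_ne_zero (pow_ne_zero _ (inv_ne_zero (hwn i))) (hwn j)
    · rw [h1, mul_smul, ← h2]
  have hD : 2 ≤ d ^ (n + 1) := by
    calc 2 ≤ d := hd
      _ = d ^ 1 := (pow_one d).symm
      _ ≤ d ^ (n + 1) := Nat.pow_le_pow_right (by omega) (by omega)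
  obtain ⟨c, hc⟩ := IsAlgClosed.exists_pow_nat_eq (el / lam)
    (show 0 < d ^ (n + 1) - 1 by omega)
  have hc0 : c ≠ 0 := by
    rintro rfl
    rw [zero_pow (by omega)] at hc
    exact (div_ne_zero hel0 hlam0) hc.symm
  have hcD : c ^ (d ^ (n + 1)) * lam = c * el := by
    have h1 : c ^ (d ^ (n + 1)) = c ^ (d ^ (n + 1) - 1) * c := by
      rw [← pow_succ]
      congr 1
      omega
    rw [h1, hc]
    field_simp
  have hbU : b ∈ cone U := by
    have h1 : w i ∈ cone U := ⟨hw0 i, hmem i⟩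
    exact cone_smul h1 (inv_ne_zero (hwn i))
  have hcb : c • b ∈ cone U := cone_smul hbU hc0
  have heq : ∀ l, eval (c • b) (iter f.F (n + 1) l) =
      (c • b) l - 1 * v l * (c • b) i₀ := by
    intro l
    have h1 : eval (c • b) (iter f.F (n + 1) l) = c ^ (d ^ (n + 1)) * (lam * a l) := by
      have h2 : pmap (iter f.F (n + 1)) (c • b) = c ^ (d ^ (n + 1)) • (lam • a) := by
        rw [pmap_smul (iter_hom f.hom (n + 1)), hlam]
      exact congrFun h2 l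
    rw [h1, ← mul_assoc, hcD]
    simp only [hv, Pi.smul_apply, Pi.sub_apply, smul_eq_mul]
    have h3 : b i₀ = el * a i₀ := by
      rw [hel, div_mul_cancel₀ _ hai]
    rw [h3]
    field_simp
    ring
  obtain ⟨x, hxU, hx⟩ := continuation hU hδ hD hvδ hvi hcb heq
  obtain ⟨hx0, hxU'⟩ := hxU
  refine ⟨toPP ⟨x, hx0⟩, hxU', n + 1, Nat.succ_pos n, ?_⟩
  rw [map_iter]
  exact toPP_eq _ hx0 1 (by rw [one_smul]; exact (funext hx).symm)

end Pool.Agent.helper37.QA
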