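import Mathlib

/-!
Points of integral extensions of `ℂ[t]`, and continuity of roots.
-/

set_option autoImplicit false

namespace Pool.Agent.helper37.QA

open MvPolynomial

/-- Evaluation of a polynomial with coefficients in `ℂ[t]` at `t` and `z`. -/
noncomputable def ev {m : ℕ} (t : ℂ) (z : Fin m → ℂ) :
    MvPolynomial (Fin m) (Polynomial ℂ) →+* ℂ :=
  eval₂Hom (Polynomial.evalRingHom t) z

@[simp] theorem ev_C {m : ℕ} (t : ℂ) (z : Fin m → ℂ) (r : Polynomial ℂ) :
    ev t z (C r) = r.eval t := by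
  simp [ev]

@[simp] theorem ev_X {m : ℕ} (t : ℂ) (z : Fin m → ℂ) (i : Fin m) :
    ev t z (X i) = z i := by
  simp [ev]

theorem ev_map {m : ℕ} (t : ℂ) (z : Fin m → ℂ) (q : MvPolynomial (Fin m) ℂ) :
    ev t z (map (algebraMap ℂ (Polynomial ℂ)) q) = eval z q := by
  have : (ev t z).comp (map (algebraMap ℂ (Polynomial ℂ))) = eval z := by
    apply MvPolynomial.ringHom_ext
    · intro r
      simp
    · intro i
      simp
  exact RingHom.congr_fun this q

/-- A root of the specialised minimal polynomial comes from a point. -/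
theorem exists_point {B : Type*} [CommRing B] [IsDomain B] [Algebra (Polynomial ℂ) B]
    [Algebra.IsIntegral (Polynomial ℂ) B]
    (hinj : Function.Injective (algebraMap (Polynomial ℂ) B))
    (qB : B) (t lam : ℂ)
    (h : ((minpoly (Polynomial ℂ) qB).map (Polynomial.evalRingHom t)).eval lam = 0) :
    ∃ χ : B →+* ℂ, (∀ r : Polynomial ℂ, χ (algebraMap (Polynomial ℂ) B r) = r.eval t) ∧
      χ qB = lam := by
  have htf : Module.IsTorsionFree (Polynomial ℂ) B := by
    exact (Module.isTorsionFree_iff_algebraMap_injective).2 hinj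
  set φ : Polynomial (Polynomial ℂ) →+* B := (Polynomial.aeval qB).toRingHom with hφ
  have hφC : φ.comp Polynomial.C = algebraMap (Polynomial ℂ) B := by
    ext r <;> simp [hφ]
  have hφint : φ.IsIntegral := by
    refine RingHom.IsIntegral.tower_top
      (Polynomial.C : Polynomial ℂ →+* Polynomial (Polynomial ℂ)) φ ?_
    rw [hφC]
    exact algebraMap_isIntegral_iff.2 inferInstance
  set ψ : Polynomial (Polynomial ℂ) →+* ℂ :=
    Polynomial.eval₂RingHom (Polynomial.evalRingHom t) lam with hψ
  have hψs : Function.Surjective ψ := fun c => ⟨Polynomial.C (Polynomial.C c), by simp [hψ]⟩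
  have hPmax : (RingHom.ker ψ).IsMaximal := RingHom.ker_isMaximal_of_surjective ψ hψs
  have hker : RingHom.ker φ ≤ RingHom.ker ψ := by
    have h1 : RingHom.ker φ = Ideal.span {minpoly (Polynomial ℂ) qB} :=
      minpoly.ker_eval (Algebra.IsIntegral.isIntegral qB)
    rw [h1, Ideal.span_singleton_le_iff_mem, RingHom.mem_ker]
    rw [Polynomial.eval_map] at h
    exact h
  obtain ⟨Q, hQmax, hQ⟩ : ∃ Q : Ideal B, Q.IsMaximal ∧ Q.comap φ = RingHom.ker ψ := by
    let _ := φ.toAlgebra
    have : Algebra.IsIntegral (Polynomial (Polynomial ℂ)) B := ⟨hφint⟩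
    exact Ideal.exists_ideal_over_maximal_of_isIntegral (RingHom.ker ψ) hker
  let _ : Field (B ⧸ Q) := Ideal.Quotient.field Q
  have hval : ∀ g : Polynomial (Polynomial ℂ),
      Ideal.Quotient.mk Q (φ g) =
        Ideal.Quotient.mk Q (algebraMap (Polynomial ℂ) B (Polynomial.C (ψ g))) := by
    intro g
    rw [Ideal.Quotient.eq]
    have h1 : φ g - algebraMap (Polynomial ℂ) B (Polynomial.C (ψ g)) =
        φ (g - Polynomial.C (Polynomial.C (ψ g))) := by
      rw [map_sub, ← hφC]
      rfl
    rw [h1, ← Ideal.mem_comap, hQ, RingHom.mem_ker, map_sub]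
    simp [hψ]
  set ι : ℂ →+* B ⧸ Q :=
    (Ideal.Quotient.mk Q).comp ((algebraMap (Polynomial ℂ) B).comp Polynomial.C) with hι
  have hιt : ∀ r : Polynomial ℂ,
      Ideal.Quotient.mk Q (algebraMap (Polynomial ℂ) B r) = ι (r.eval t) := by
    intro r
    have := hval (Polynomial.C r)
    have h2 : φ (Polynomial.C r) = algebraMap (Polynomial ℂ) B r := by
      rw [← hφC]
      rfl
    rw [h2] at this
    rw [this]
    simp [hι, hψ]
  have hιint : ι.IsIntegral := by
    intro b
    obtain ⟨b', rfl⟩ := Ideal.Quotient.mk_surjective b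
    obtain ⟨g, hg, hg2⟩ := Algebra.IsIntegral.isIntegral (R := Polynomial ℂ) b'
    refine ⟨g.map (Polynomial.evalRingHom t), hg.map _, ?_⟩
    rw [Polynomial.eval₂_map]
    have h3 : ι.comp (Polynomial.evalRingHom t) =
        (Ideal.Quotient.mk Q).comp (algebraMap (Polynomial ℂ) B) := by
      exact RingHom.ext fun r => (hιt r).symm
    rw [h3]
    have h4 := Polynomial.hom_eval₂ g (algebraMap (Polynomial ℂ) B) (Ideal.Quotient.mk Q) b'
    rw [hg2, map_zero] at h4
    exact h4.symm
  have hbij := IsAlgClosed.ringHom_bijective_of_isIntegral ι hιint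
  let e : ℂ ≃+* B ⧸ Q := RingEquiv.ofBijective ι hbij
  have he : ∀ c : ℂ, e.symm (ι c) = c := fun c => e.symm_apply_apply c
  refine ⟨(e.symm : (B ⧸ Q) →+* ℂ).comp (Ideal.Quotient.mk Q), ?_, ?_⟩
  · intro r
    change e.symm (Ideal.Quotient.mk Q (algebraMap (Polynomial ℂ) B r)) = _
    rw [hιt, he]
  · have h5 := hval Polynomial.X
    have h6 : φ Polynomial.X = qB := by simp [hφ]
    have h7 : ψ Polynomial.X = lam := by simp [hψ]
    rw [h6, h7] at h5
    change e.symm (Ideal.Quotient.mk Q qB) = lam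
    rw [h5]
    exact he lam

/-- Continuity of roots: if a monic polynomial of degree `n` is smaller than `ε ^ n` at `x₀`,
then it has a root near `x₀`. -/
theorem exists_root_near {g : Polynomial ℂ} (hg : g.Monic) {x₀ : ℂ}
    {ε : ℝ} (hε : 0 < ε) (h : ‖g.eval x₀‖ < ε ^ g.natDegree) :
    ∃ lam : ℂ, g.eval lam = 0 ∧ ‖lam - x₀‖ < ε := by
  by_contra hcon
  push Not at hcon
  have hs : g.Splits := IsAlgClosed.splits g
  have h1 : g.eval x₀ = (g.roots.map fun a => x₀ - a).prod := by
    have := hs.eval_eq_prod_roots_of_monic hg x₀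
    simpa using this
  have h2 : ∀ a ∈ g.roots, ε ≤ ‖x₀ - a‖ := by
    intro a ha
    rw [norm_sub_rev]
    refine hcon a ?_
    exact (Polynomial.mem_roots'.1 ha).2
  have h3 : ε ^ g.natDegree ≤ ‖g.eval x₀‖ := by
    rw [h1, hs.natDegree_eq_card_roots]
    have h4 : ‖(g.roots.map fun a => x₀ - a).prod‖ = (g.roots.map fun a => ‖x₀ - a‖).prod := by
      have := (Multiset.prod_hom (g.roots.map fun a => x₀ - a) (normHom : ℂ →*₀ ℝ)).symm
      simpa [Multiset.map_map, Function.comp_def] using this
    rw [h4]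
    have h5 : ∀ s : Multiset ℂ, (∀ a ∈ s, ε ≤ ‖x₀ - a‖) →
        ε ^ Multiset.card s ≤ (s.map fun a => ‖x₀ - a‖).prod := by
      intro s
      induction s using Multiset.induction_on with
      | empty => intro _; simp
      | cons a s ih =>
        intro hs
        rw [Multiset.card_cons, Multiset.map_cons, Multiset.prod_cons, pow_succ, mul_comm]
        exact mul_le_mul (hs a (Multiset.mem_cons_self a s))
          (ih fun b hb => hs b (Multiset.mem_cons_of_mem hb)) (by positivity) (norm_nonneg _)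
    exact h5 _ h2
  linarith

end Pool.Agent.helper37.QA
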