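import Pool.Agent.helper37.QA.Height
import Pool.Agent.helper37.QA.Finite
import Pool.Agent.helper37.QA.Point

/-!
Solutions of `G(x) = ℓ_t(x)` near a given one: values of polynomials.
-/

set_option autoImplicit false

namespace Pool.Agent.helper37.QA

open MvPolynomial

theorem comap_eq_bot {m D : ℕ} (hD : 2 ≤ D) {G : Fin m → MvPolynomial (Fin m) ℂ}
    (hom : ∀ i, (G i).IsHomogeneous D) (nd : ∀ x : Fin m → ℂ, (∀ i, eval x (G i) = 0) → x = 0)
    {ell : Fin m → MvPolynomial (Fin m) (Polynomial ℂ)} (hl : ∀ i, (ell i).totalDegree ≤ 1)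
    {p : Ideal (MvPolynomial (Fin m) (Polynomial ℂ))} (hp : p ∈ (eqI G ell).minimalPrimes) :
    p.comap (C : Polynomial ℂ →+* MvPolynomial (Fin m) (Polynomial ℂ)) = ⊥ := by
  classical
  have hpp : p.IsPrime := hp.1.1
  have hht : p.height ≤ m := by
    have h1 : p ∈ (Ideal.span ((Finset.univ.image (eqs G ell) : Finset _) :
        Set (MvPolynomial (Fin m) (Polynomial ℂ)))).minimalPrimes := by
      simpa [eqI] using hp
    have h2 := Ideal.height_le_card_of_mem_minimalPrimes_span_finset h1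
    refine h2.trans ?_
    have h3 : (Finset.univ.image (eqs G ell)).card ≤ m := by
      simpa using Finset.card_image_le (s := (Finset.univ : Finset (Fin m))) (f := eqs G ell)
    exact_mod_cast h3
  by_contra hne
  have hmax : (p.comap (C : Polynomial ℂ →+* MvPolynomial (Fin m) (Polynomial ℂ))).IsMaximal :=
    IsPrime.to_maximal_ideal hne
  have hfin : Module.Finite (Polynomial ℂ) (MvPolynomial (Fin m) (Polynomial ℂ) ⧸ p) :=
    finite_quot hD hom nd hl p hp.1.2
  have hint : Algebra.IsIntegral (Polynomial ℂ) (MvPolynomial (Fin m) (Polynomial ℂ) ⧸ p) :=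
    inferInstance
  have hbot : (⊥ : Ideal (MvPolynomial (Fin m) (Polynomial ℂ) ⧸ p)).IsMaximal := by
    have : (⊥ : Ideal (MvPolynomial (Fin m) (Polynomial ℂ) ⧸ p)).IsPrime := Ideal.isPrime_bot
    refine Ideal.isMaximal_of_isIntegral_of_isMaximal_comap (R := Polynomial ℂ)
      (S := MvPolynomial (Fin m) (Polynomial ℂ) ⧸ p) ⊥ ?_
    have h4 : (⊥ : Ideal (MvPolynomial (Fin m) (Polynomial ℂ) ⧸ p)).comap
        (algebraMap (Polynomial ℂ) (MvPolynomial (Fin m) (Polynomial ℂ) ⧸ p)) =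
        p.comap (C : Polynomial ℂ →+* MvPolynomial (Fin m) (Polynomial ℂ)) := by
      ext r
      rw [Ideal.mem_comap, Ideal.mem_comap, Ideal.mem_bot]
      exact Ideal.Quotient.eq_zero_iff_mem
    rw [h4]
    exact hmax
  have hpmax : p.IsMaximal := (Ideal.bot_quotient_isMaximal_iff p).1 hbot
  rw [height_mvPoly m p,
    IsPrincipalIdealRing.height_eq_one_of_isMaximal _ (Polynomial.not_isField ℂ)] at hht
  have h5 : ((1 + m : ℕ) : ℕ∞) ≤ (m : ℕ∞) := by exact_mod_cast hht
  have h6 : 1 + m ≤ m := by exact_mod_cast h5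
  omega

theorem near_value {m D : ℕ} (hD : 2 ≤ D) {G : Fin m → MvPolynomial (Fin m) ℂ}
    (hom : ∀ i, (G i).IsHomogeneous D) (nd : ∀ x : Fin m → ℂ, (∀ i, eval x (G i) = 0) → x = 0)
    {ell : Fin m → MvPolynomial (Fin m) (Polynomial ℂ)} (hl : ∀ i, (ell i).totalDegree ≤ 1)
    {t₀ : ℂ} {x₀ : Fin m → ℂ} (h0 : ∀ i, ev t₀ x₀ (eqs G ell i) = 0)
    (q : MvPolynomial (Fin m) ℂ) {ε : ℝ} (hε : 0 < ε) :
    ∃ η : ℝ, 0 < η ∧ ∀ t : ℂ, ‖t - t₀‖ < η → ∃ z : Fin m → ℂ,
      (∀ i, ev t z (eqs G ell i) = 0) ∧ ‖eval z q - eval x₀ q‖ < ε := by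
  have hsurj : Function.Surjective (ev t₀ x₀) := fun c => ⟨C (Polynomial.C c), by simp⟩
  have hmmax : (RingHom.ker (ev t₀ x₀)).IsMaximal :=
    RingHom.ker_isMaximal_of_surjective _ hsurj
  have hI : eqI G ell ≤ RingHom.ker (ev t₀ x₀) := by
    refine Ideal.span_le.2 ?_
    rintro _ ⟨i, rfl⟩
    exact h0 i
  obtain ⟨p, hp, hpm⟩ := Ideal.exists_minimalPrimes_le hI
  have hpp : p.IsPrime := hp.1.1
  have hcomap := comap_eq_bot hD hom nd hl hp
  have hfin : Module.Finite (Polynomial ℂ) (MvPolynomial (Fin m) (Polynomial ℂ) ⧸ p) :=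
    finite_quot hD hom nd hl p hp.1.2
  have hint : Algebra.IsIntegral (Polynomial ℂ) (MvPolynomial (Fin m) (Polynomial ℂ) ⧸ p) :=
    inferInstance
  have hinj : Function.Injective
      (algebraMap (Polynomial ℂ) (MvPolynomial (Fin m) (Polynomial ℂ) ⧸ p)) := by
    rw [RingHom.injective_iff_ker_eq_bot, ← hcomap]
    ext r
    rw [RingHom.mem_ker, Ideal.mem_comap]
    exact Ideal.Quotient.eq_zero_iff_mem
  set qB := Ideal.Quotient.mk p (map (algebraMap ℂ (Polynomial ℂ)) q) with hqB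
  set mp := minpoly (Polynomial ℂ) qB with hmp
  have hmonic : mp.Monic := minpoly.monic (Algebra.IsIntegral.isIntegral qB)
  set l₀ := eval x₀ q with hl₀
  have hF : ∀ t : ℂ, (mp.map (Polynomial.evalRingHom t)).eval l₀ =
      (mp.eval (Polynomial.C l₀)).eval t := by
    intro t
    have h1 := Polynomial.hom_eval₂ mp (RingHom.id (Polynomial ℂ)) (Polynomial.evalRingHom t)
      (Polynomial.C l₀)
    rw [Polynomial.eval_map]
    simp only [RingHom.comp_id, Polynomial.coe_evalRingHom, Polynomial.eval_C] at h1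
    rw [Polynomial.eval]
    exact h1.symm
  have hF0 : (mp.eval (Polynomial.C l₀)).eval t₀ = 0 := by
    rw [← hF, Polynomial.eval_map]
    set χ₀ : MvPolynomial (Fin m) (Polynomial ℂ) ⧸ p →+* ℂ :=
      Ideal.Quotient.lift p (ev t₀ x₀) (fun s hs => hpm hs) with hχ₀
    have h2 : Polynomial.aeval qB mp = 0 := minpoly.aeval _ _
    rw [Polynomial.aeval_def] at h2
    have h3 := Polynomial.hom_eval₂ mp (algebraMap (Polynomial ℂ) _) χ₀ qB
    rw [h2, map_zero] at h3
    have h4 : χ₀.comp (algebraMap (Polynomial ℂ) (MvPolynomial (Fin m) (Polynomial ℂ) ⧸ p)) =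
        Polynomial.evalRingHom t₀ := by
      refine RingHom.ext fun r => ?_
      change ev t₀ x₀ (C r) = _
      simp
    have h5 : χ₀ qB = l₀ := by
      change ev t₀ x₀ (map (algebraMap ℂ (Polynomial ℂ)) q) = l₀
      rw [ev_map]
    rw [h4, h5] at h3
    exact h3.symm
  have hcont : Continuous fun t : ℂ => (mp.eval (Polynomial.C l₀)).eval t :=
    (mp.eval (Polynomial.C l₀)).continuous
  obtain ⟨η, hη, hη2⟩ := Metric.continuous_iff.1 hcont t₀ (ε ^ mp.natDegree) (by positivity)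
  refine ⟨η, hη, fun t ht => ?_⟩
  have h6 := hη2 t (by rw [dist_eq_norm]; exact ht)
  rw [hF0, dist_zero_right, ← hF] at h6
  have hmon2 : (mp.map (Polynomial.evalRingHom t)).Monic := hmonic.map _
  obtain ⟨lam, hlam, hlam2⟩ := exists_root_near hmon2 hε (x₀ := l₀) (by
    rw [hmonic.natDegree_map]
    exact h6)
  obtain ⟨χ, hχ, hχq⟩ := exists_point hinj qB t lam hlam
  have hχev : χ.comp (Ideal.Quotient.mk p) =
      ev t (fun i => χ (Ideal.Quotient.mk p (X i))) := by
    apply MvPolynomial.ringHom_ext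
    · intro r
      rw [ev_C]
      exact hχ r
    · intro i
      rw [ev_X]
      rfl
  refine ⟨fun i => χ (Ideal.Quotient.mk p (X i)), ?_, ?_⟩
  · intro i
    rw [← hχev, RingHom.comp_apply]
    have : Ideal.Quotient.mk p (eqs G ell i) = 0 :=
      Ideal.Quotient.eq_zero_iff_mem.2 (hp.1.2 (Ideal.subset_span ⟨i, rfl⟩))
    rw [this, map_zero]
  · rw [← ev_map t, ← hχev, RingHom.comp_apply, ← hqB, hχq]
    exact hlam2

end Pool.Agent.helper37.QA
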