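import Pool.Agent.helper37.QA.Main

/-!
Attracting sets, their finite intersections, and neighbourhoods of quasi-attractors.
-/

set_option autoImplicit false

namespace Pool.Agent.helper37.QA

open MvPolynomial Filter Topology

variable {k d : ℕ}

/-- The entries of the projector on the line of `w`. -/
noncomputable def projEntry (w : Fin (k + 1) → ℂ) (i j : Fin (k + 1)) : ℂ :=
  w i * (starRingEnd ℂ) (w j) / ∑ l, (w l * (starRingEnd ℂ) (w l))

theorem sum_ne {w : Fin (k + 1) → ℂ} (hw : w ≠ 0) : ∑ l, (w l * (starRingEnd ℂ) (w l)) ≠ 0 := by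
  intro h
  have h1 : ∑ l, Complex.normSq (w l) = 0 := by
    have h2 : ((∑ l, Complex.normSq (w l) : ℝ) : ℂ) = 0 := by
      push_cast
      rw [← h]
      exact Finset.sum_congr rfl fun l _ => (Complex.mul_conj (w l)).symm
    exact_mod_cast h2
  apply hw
  funext l
  have h3 := (Finset.sum_eq_zero_iff_of_nonneg fun l _ => Complex.normSq_nonneg (w l)).1 h1 l
    (Finset.mem_univ l)
  exact Complex.normSq_eq_zero.1 h3

theorem projEntry_smul (w : Fin (k + 1) → ℂ) {c : ℂ} (hc : c ≠ 0) (i j : Fin (k + 1)) :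
    projEntry (c • w) i j = projEntry w i j := by
  have hc' : (starRingEnd ℂ) c ≠ 0 := by simpa using hc
  have h1 : ∑ l, ((c • w) l * (starRingEnd ℂ) ((c • w) l)) =
      (c * (starRingEnd ℂ) c) * ∑ l, (w l * (starRingEnd ℂ) (w l)) := by
    rw [Finset.mul_sum]
    refine Finset.sum_congr rfl fun l _ => ?_
    simp only [Pi.smul_apply, smul_eq_mul, map_mul]
    ring
  rw [projEntry, projEntry, h1]
  simp only [Pi.smul_apply, smul_eq_mul, map_mul]
  rw [show c * w i * ((starRingEnd ℂ) c * (starRingEnd ℂ) (w j)) =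
    (c * (starRingEnd ℂ) c) * (w i * (starRingEnd ℂ) (w j)) by ring]
  rw [mul_div_mul_left _ _ (mul_ne_zero hc hc')]

theorem projEntry_inj {w u : Fin (k + 1) → ℂ} (hw : w ≠ 0) (hu : u ≠ 0)
    (h : ∀ i j, projEntry w i j = projEntry u i j) : toPP ⟨w, hw⟩ = toPP ⟨u, hu⟩ := by
  obtain ⟨j, hj⟩ := Function.ne_iff.1 hw
  have hj' : (starRingEnd ℂ) (w j) ≠ 0 := by simpa using hj
  have hsw := sum_ne hw
  have hsu := sum_ne hu
  refine toPP_eq hw hu ((∑ l, (w l * (starRingEnd ℂ) (w l))) /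
    (∑ l, (u l * (starRingEnd ℂ) (u l))) * (starRingEnd ℂ) (u j) / (starRingEnd ℂ) (w j)) ?_
  funext i
  have h1 := h i j
  rw [projEntry, projEntry, div_eq_div_iff hsw hsu] at h1
  simp only [Pi.smul_apply, smul_eq_mul]
  field_simp
  linear_combination -h1

theorem continuous_projEntry (i j : Fin (k + 1)) :
    Continuous fun p : PP k => projEntry p.rep i j := by
  refine continuous_coinduced_dom.2 ?_
  have h1 : ((fun p : PP k => projEntry p.rep i j) ∘ toPP) =
      fun v : {v : Fin (k + 1) → ℂ // v ≠ 0} => projEntry v.1 i j := by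
    funext v
    obtain ⟨a, ha⟩ := Projectivization.exists_smul_eq_mk_rep ℂ v.1 v.2
    change projEntry (Projectivization.mk ℂ v.1 v.2).rep i j = _
    rw [← ha]
    exact projEntry_smul v.1 a.ne_zero i j
  rw [h1]
  have h0 : ∀ l : Fin (k + 1), Continuous fun v : {v : Fin (k + 1) → ℂ // v ≠ 0} => v.1 l :=
    fun l => (continuous_apply l).comp continuous_subtype_val
  have h2 : Continuous fun v : {v : Fin (k + 1) → ℂ // v ≠ 0} =>
      v.1 i * (starRingEnd ℂ) (v.1 j) :=
    (h0 i).mul (Complex.continuous_conj.comp (h0 j))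
  have h3 : Continuous fun v : {v : Fin (k + 1) → ℂ // v ≠ 0} =>
      ∑ l, (v.1 l * (starRingEnd ℂ) (v.1 l)) :=
    continuous_finsetSum _ fun l _ => (h0 l).mul (Complex.continuous_conj.comp (h0 l))
  exact h2.div h3 fun v => sum_ne v.2

instance instT2PP : T2Space (PP k) := by
  refine T2Space.of_injective_continuous
    (f := fun p : PP k => fun (ij : Fin (k + 1) × Fin (k + 1)) => projEntry p.rep ij.1 ij.2)
    ?_ (continuous_pi fun ij => continuous_projEntry ij.1 ij.2)
  intro p q hpq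
  have h1 := projEntry_inj p.rep_nonzero q.rep_nonzero fun i j => congrFun hpq (i, j)
  have hp : toPP ⟨p.rep, p.rep_nonzero⟩ = p := p.mk_rep
  have hq : toPP ⟨q.rep, q.rep_nonzero⟩ = q := q.mk_rep
  rw [hp, hq] at h1
  exact h1

instance instCompactPP : CompactSpace (PP k) := by
  have hcpt : IsCompact (Metric.sphere (0 : Fin (k + 1) → ℂ) 1) := isCompact_sphere _ _
  have hsub : ∀ x : Metric.sphere (0 : Fin (k + 1) → ℂ) 1, x.1 ≠ 0 := by
    rintro ⟨x, hx⟩ rfl
    simp at hx
  have h1 : Continuous fun x : Metric.sphere (0 : Fin (k + 1) → ℂ) 1 =>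
      toPP ⟨x.1, hsub x⟩ :=
    toPP_cont.comp (Continuous.subtype_mk continuous_subtype_val _)
  have : CompactSpace (Metric.sphere (0 : Fin (k + 1) → ℂ) 1) := isCompact_iff_compactSpace.1 hcpt
  have h2 : Function.Surjective fun x : Metric.sphere (0 : Fin (k + 1) → ℂ) 1 =>
      toPP ⟨x.1, hsub x⟩ := by
    intro p
    have hn : ‖p.rep‖ ≠ 0 := norm_ne_zero_iff.2 p.rep_nonzero
    have hc : ((‖p.rep‖ : ℂ)⁻¹) ≠ 0 := inv_ne_zero (by exact_mod_cast hn)
    refine ⟨⟨((‖p.rep‖ : ℂ)⁻¹) • p.rep, ?_⟩, ?_⟩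
    · simp [norm_smul, hn]
    · have h3 := toPP_eq (smul_ne_zero hc p.rep_nonzero) p.rep_nonzero _ rfl
      have hp : toPP ⟨p.rep, p.rep_nonzero⟩ = p := p.mk_rep
      rw [hp] at h3
      exact h3
  constructor
  rw [← h2.range_eq]
  exact isCompact_range h1

theorem map_cont (f : Endo k d) : Continuous f.map := by
  refine continuous_coinduced_dom.2 ?_
  have h1 : f.map ∘ toPP = fun v : {v : Fin (k + 1) → ℂ // v ≠ 0} =>
      toPP ⟨pmap f.F v.1, pmap_ne f.nondeg v.2⟩ := by
    funext v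
    exact map_toPP f v.2
  rw [h1]
  exact toPP_cont.comp (((pmap_cont f.F).comp continuous_subtype_val).subtype_mk _)

theorem attr_eq {f : Endo k d} {U : Set (PP k)} (hU : IsTrapping f U) :
    attr f U = ⋂ n : ℕ, f.map^[n] '' closure U := by
  apply Set.Subset.antisymm
  · exact Set.iInter_mono fun n => Set.image_mono subset_closure
  · intro x hx
    rw [Set.mem_iInter] at hx
    refine Set.mem_iInter.2 fun n => ?_
    obtain ⟨y, hy, hyx⟩ := hx (n + 1)
    refine ⟨f.map y, hU.2.2 ⟨y, hy, rfl⟩, ?_⟩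
    rw [← Function.iterate_succ_apply]
    exact hyx

theorem attr_closed {f : Endo k d} {U : Set (PP k)} (hU : IsTrapping f U) :
    IsClosed (attr f U) := by
  rw [attr_eq hU]
  exact isClosed_iInter fun n =>
    (isClosed_closure.isCompact.image ((map_cont f).iterate n)).isClosed

theorem attr_sub {f : Endo k d} {U : Set (PP k)} : attr f U ⊆ U := by
  intro x hx
  obtain ⟨y, hy, hyx⟩ := Set.mem_iInter.1 hx 0
  rw [Function.iterate_zero, id] at hyx
  rwa [← hyx]

theorem iterate_mem {f : Endo k d} {U : Set (PP k)} (hU : IsTrapping f U) {x : PP k}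
    (hx : x ∈ U) (n : ℕ) : f.map^[n] x ∈ U := by
  induction n with
  | zero => exact hx
  | succ n ih =>
    rw [Function.iterate_succ_apply']
    exact hU.2.2 ⟨_, subset_closure ih, rfl⟩

theorem attr_inv {f : Endo k d} {U : Set (PP k)} (hU : IsTrapping f U) {x : PP k}
    (hx : x ∈ attr f U) (m : ℕ) : f.map^[m] x ∈ attr f U := by
  refine Set.mem_iInter.2 fun n => ?_
  obtain ⟨y, hy, rfl⟩ := Set.mem_iInter.1 hx n
  refine ⟨f.map^[m] y, iterate_mem hU hy m, ?_⟩
  rw [← Function.iterate_add_apply, ← Function.iterate_add_apply, add_comm]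

theorem periodic_mem_attr {f : Endo k d} {U : Set (PP k)} (hU : IsTrapping f U) {x : PP k}
    (hx : x ∈ U) {n : ℕ} (hn : 0 < n) (hper : f.map^[n] x = x) : x ∈ attr f U := by
  refine Set.mem_iInter.2 fun m => ?_
  have h1 : ∀ l : ℕ, f.map^[n * l] x = x := by
    intro l
    rw [Function.iterate_mul]
    exact Function.iterate_fixed hper l
  refine ⟨f.map^[n * m - m] x, iterate_mem hU hx _, ?_⟩
  rw [← Function.iterate_add_apply, show m + (n * m - m) = n * m by
    have : m ≤ n * m := Nat.le_mul_of_pos_left m hn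
    omega]
  exact h1 m

theorem trapping_inter {f : Endo k d} {ι : Type*} (J : Finset ι) {U : ι → Set (PP k)}
    (hU : ∀ i, IsTrapping f (U i)) (hne : (⋂ i ∈ J, attr f (U i)).Nonempty) :
    IsTrapping f (⋂ i ∈ J, U i) := by
  refine ⟨?_, ?_, ?_⟩
  · exact isOpen_biInter_finset fun i _ => (hU i).1
  · obtain ⟨x, hx⟩ := hne
    refine ⟨x, ?_⟩
    simp only [Set.mem_iInter] at hx ⊢
    exact fun i hi => attr_sub (hx i hi)
  · rintro _ ⟨y, hy, rfl⟩
    simp only [Set.mem_iInter]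
    intro i hi
    refine (hU i).2.2 ⟨y, ?_, rfl⟩
    exact closure_mono (Set.biInter_subset_of_mem hi) hy

theorem periodic_finset (hd : 2 ≤ d) {f : Endo k d} {ι : Type*} (J : Finset ι)
    {U : ι → Set (PP k)} (hU : ∀ i, IsTrapping f (U i))
    (hne : (⋂ i ∈ J, attr f (U i)).Nonempty) :
    ∃ x ∈ ⋂ i ∈ J, attr f (U i), ∃ n : ℕ, 0 < n ∧ f.map^[n] x = x := by
  obtain ⟨x, hx, n, hn, hper⟩ := exists_periodic hd (trapping_inter J hU hne)
  refine ⟨x, ?_, n, hn, hper⟩
  simp only [Set.mem_iInter] at hx ⊢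
  exact fun i hi => periodic_mem_attr (hU i) (hx i hi) hn hper

/-- Every neighbourhood of a quasi-attractor contains a periodic orbit. -/
theorem periodic_nhds (hd : 2 ≤ d) {f : Endo k d} {ι : Type*}
    {U : ι → Set (PP k)} (hU : ∀ i, IsTrapping f (U i))
    (hne : (⋂ i, attr f (U i)).Nonempty) {V : Set (PP k)} (hV : IsOpen V)
    (hKV : ⋂ i, attr f (U i) ⊆ V) :
    ∃ x : PP k, (∃ n : ℕ, 0 < n ∧ f.map^[n] x = x) ∧ ∀ m : ℕ, f.map^[m] x ∈ V := by
  have h1 : Vᶜ ∩ ⋂ i, attr f (U i) = ∅ := by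
    rw [← Set.disjoint_iff_inter_eq_empty, Set.disjoint_left]
    intro x hx hx2
    exact hx (hKV hx2)
  obtain ⟨J, hJ⟩ := hV.isClosed_compl.isCompact.elim_finite_subfamily_closed
    (fun i => attr f (U i)) (fun i => attr_closed (hU i)) h1
  have hneJ : (⋂ i ∈ J, attr f (U i)).Nonempty := by
    obtain ⟨x, hx⟩ := hne
    refine ⟨x, ?_⟩
    simp only [Set.mem_iInter] at hx ⊢
    exact fun i _ => hx i
  obtain ⟨x, hx, n, hn, hper⟩ := periodic_finset hd J hU hneJ
  refine ⟨x, ⟨n, hn, hper⟩, fun m => ?_⟩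
  by_contra hcon
  have h2 : f.map^[m] x ∈ Vᶜ ∩ ⋂ i ∈ J, attr f (U i) := by
    refine ⟨hcon, ?_⟩
    simp only [Set.mem_iInter] at hx ⊢
    exact fun i hi => attr_inv (hU i) (hx i hi) m
  rw [hJ] at h2
  exact h2

end Pool.Agent.helper37.QA
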